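import Pool.Agent.Helper91.SY.Heads

/-!
# Project SZ (MP_126465_gt): the embedding criterion and the infinite swindle

THEOREM.  `n ≥ 2`, `η` a symplectic form on `ℝ^(2n)`, standard outside the cube `Q` of half side `R`.
Equivalent: (1) `(ℝ^(2n), η)` is symplectomorphic to `(ℝ^(2n), w0)`; (2) it embeds symplectically into
`(ℝ^(2n), w0)`; (3) a neighbourhood of `Q` does; (4) there is `η'` standard at infinity such that `η'` with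
`η` inserted far away is isomorphic to `w0` by a diffeomorphism of compact support; (5) the same without
compact support.

Proof of (3) => (4): `ψ : U → ℝ^(2n)`.  Moser moves concentrate `η` near a point (NRM).  `ψ` has a compactly
supported inverse `G` (PAL).  `σ = G_* w0` contains `η`; `Z = σ` with `η` removed (SL1).  Inside `σ` the
concentrated copy of `η` can be moved through the chart `G` to infinity (STR, SL2).
(4) => (1): infinite swindle (PAIR, PER, SW): `η ≅ η + (Z + η) + (Z + η) + ... = (η + Z) + (η + Z) + ... ≅ w0`.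

Definitions `Symp, Pull, Far, Sm, Flow, V, Form, w0, StdAtInf, Standard` : project SY
(`Pool/Agent/Helper91/SY/Goals.lean`, `Heads.lean`).  Proved packets of SY which may be used: GI
(`StmtGI`, global inversion), IV (`StmtIV`, smooth inverse), GE, SM (complete smooth flows of fields constant
at infinity).  Everywhere below forms are bilinear maps `E → E →L[ℝ] E →L[ℝ] ℝ`.
-/

set_option autoImplicit false

open Set Filter Topology Metric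
open scoped ContDiff

namespace Pool.Agent.Helper97.SZ

open Pool.Agent.Helper91.SY

section
variable {E : Type} [NormedAddCommGroup E] [NormedSpace ℝ E]

/-- there is a diffeomorphism `g` of `E` with support in `K` and `g^* B' = B` -/
def Iso (K : Set E) (B B' : E → E →L[ℝ] E →L[ℝ] ℝ) : Prop :=
  ∃ g : E ≃ E, Sm g ∧ (∀ x, x ∉ K → g x = x) ∧ Pull (fun x => g x) B B'

/-- the exterior derivative of a `1`-form: `dd a x u v = D a(x)(u)(v) - D a(x)(v)(u)` -/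
noncomputable def dd (a : E → E →L[ℝ] ℝ) (x : E) : E →L[ℝ] E →L[ℝ] ℝ :=
  fderiv ℝ a x - (fderiv ℝ a x).flip

/-- the pullback `g^* B` -/
noncomputable def pb (g : E → E) (B : E → E →L[ℝ] E →L[ℝ] ℝ) (x : E) : E →L[ℝ] E →L[ℝ] ℝ :=
  (B (g x)).bilinearComp (fderiv ℝ g x) (fderiv ℝ g x)

/-- `Θ` with the form `B` (equal to `B0` at infinity) inserted: `B` is scaled by `μ` and translated to `c` -/
noncomputable def ins (B0 : E →L[ℝ] E →L[ℝ] ℝ) (B Θ : E → E →L[ℝ] E →L[ℝ] ℝ) (c : E) (μ : ℝ) (x : E) :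
    E →L[ℝ] E →L[ℝ] ℝ :=
  Θ x + (B (μ⁻¹ • (x - c)) - B0)

end

/-! ## Block A: general tools -/

/-- PACKET IS (isomorphisms: groupoid properties).
Proof.  `symm`: use `g.symm`: `D g(g.symm y) ∘ D g.symm(y) = id` (chain rule), so
`B (g.symm y) (D g.symm u) (D g.symm v) = B' y (D g D g.symm u) (..) = B' y u v`; if `x ∉ K` then `g x = x`, so
`g.symm x = x`.  `trans`: `g.trans g'`, chain rule.  Translation: `x ↦ g (x - c) + c`. -/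
def StmtIS : Prop := ∀ (E : Type) [NormedAddCommGroup E] [NormedSpace ℝ E],
  (∀ (K : Set E) (B : E → E →L[ℝ] E →L[ℝ] ℝ), Iso K B B) ∧
  (∀ (K : Set E) (B B' : E → E →L[ℝ] E →L[ℝ] ℝ), Iso K B B' → Iso K B' B) ∧
  (∀ (K K' : Set E) (B B' B'' : E → E →L[ℝ] E →L[ℝ] ℝ), Iso K B B' → Iso K' B' B'' →
    Iso (K ∪ K') B B'') ∧
  (∀ (K K' : Set E) (B B' : E → E →L[ℝ] E →L[ℝ] ℝ), K ⊆ K' → Iso K B B' → Iso K' B B') ∧
  (∀ (K : Set E) (B B' : E → E →L[ℝ] E →L[ℝ] ℝ) (c : E), Iso K B B' →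
    Iso ((fun x => x + c) '' K) (fun x => B (x - c)) (fun x => B' (x - c)))

/-- PACKET PB (pullbacks).
Proof.  `pb g B x u v = B (g x) (Dg(x) u) (Dg(x) v)` (`bilinearComp_apply`).  Smooth: composition of smooth maps
with the continuous multilinear map `(b, l) ↦ b.bilinearComp l l` (or test on a finite basis / use
`ContDiff.clm_comp`, `ContinuousLinearMap.flip`).  Alternating: clear.  Closed: the derivative of
`x ↦ B (g x) (Dg(x) v) (Dg(x) w)` in the direction `u` is `DB(Dg u)(Dg v, Dg w) + B(D²g(u,v), Dg w) +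
B(Dg v, D²g(u,w))`; in `D_u(v,w) - D_v(u,w) + D_w(u,v)` the terms with `D²g` cancel (`D²g` symmetric, `B`
antisymmetric).  Nondegenerate: `Dg(x)` is bijective with inverse `D g.symm(g x)`. -/
def StmtPB : Prop := ∀ (E : Type) [NormedAddCommGroup E] [NormedSpace ℝ E] [FiniteDimensional ℝ E]
  (g : E ≃ E) (B : E → E →L[ℝ] E →L[ℝ] ℝ), Sm g → Symp B →
  Symp (pb (fun x => g x) B) ∧ Pull (fun x => g x) (pb (fun x => g x) B) B

/-- PACKET MOSER (from SY: GE, SM, GI, IV).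
Proof.  Write `Θ_t = Θ + dd γ_t`.  Let `τ(t) = Real.smoothTransition t` (smooth, values in `[0,1]`, `0` for
`t ≤ 0`, `1` for `t ≥ 1`) and replace `γ_t` by `γ_{τ(t)}`: now everything is defined and nondegenerate for all
`t : ℝ`, `γ_t(x) = γ_0(x)` for all `t` if `x ∉ K`, and `γ_t` does not depend on `t` for `t ≤ 0` and for
`t ≥ 1`.  Let `b_t(x) = ∂_t γ_t(x)` (smooth in `(t,x)`) and `X(t,x) = -(Θ_t(x))⁻¹ b_t(x)`, i.e.
`Θ_t(x)(X, v) = -b_t(x) v`; smooth by `ContinuousLinearMap.inverse`, `contDiffAt_map_inverse` (an injective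
continuous linear map `E → E →L ℝ` between spaces of equal finite dimension is invertible).  `X = 0` outside
`[0,1] × K`.  So `Y(t,x) = (1, X(t,x))` is a smooth field on `ℝ × E`, equal to `(1,0)` outside a ball; GE, SM
give a smooth complete flow; let `F_s(x)` be the second component of the flow at time `s` of the point
`(0,x)` (the first component is `s`): jointly smooth, `F_0 = id`, `∂_s F_s(x) = X(s, F_s x)`.  If `x ∉ K` then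
`F_s(x) = x` (uniqueness, `Y` is Lipschitz: `s ↦ (s, x)` is an integral curve).
Let `W(s) = Θ_s(F_s x)(U, V)`, `U = DF_s(x) u`, `V = DF_s(x) v`; `U' = DX U`, `V' = DX V` (symmetry of second
derivatives of `F`).  `W' = (∂_s Θ_s)(U,V) + D_X Θ(U,V) + Θ(DX U, V) + Θ(U, DX V)`.  Differentiating
`Θ(X, V) = -b V` in the direction `U`: `Θ(DX U, V) = -D_U b(V) - D_U Θ(X, V)`; similarly
`Θ(U, DX V) = -Θ(DX V, U) = D_V b(U) + D_V Θ(X, U)`.  `∂_s Θ_s = dd b_s`.  So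
`W' = dd b(U,V) - D_U b(V) + D_V b(U) + [D_X Θ(U,V) - D_U Θ(X,V) + D_V Θ(X,U)] = 0` (closedness of `Θ_s`:
`Θ` is closed and `dd γ_s` is closed by the symmetry of the second derivative).  Hence `F_1^* Θ_1 = Θ_0`.
`DF_1(x)` is injective because `Θ_0` is nondegenerate; `F_1` is the identity outside a ball: GI, IV. -/
def StmtMOSER : Prop := ∀ (E : Type) [NormedAddCommGroup E] [NormedSpace ℝ E] [FiniteDimensional ℝ E]
  (Θ : E → E →L[ℝ] E →L[ℝ] ℝ) (γ : ℝ → E → E →L[ℝ] ℝ) (K : Set E), ContDiff ℝ ∞ Θ →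
  (∀ x u, Θ x u u = 0) →
  (∀ x u v w, fderiv ℝ Θ x u v w - fderiv ℝ Θ x v u w + fderiv ℝ Θ x w u v = 0) →
  ContDiff ℝ ∞ (fun p : ℝ × E => γ p.1 p.2) → IsCompact K →
  (∀ t ∈ Icc (0 : ℝ) 1, ∀ x, x ∉ K → γ t x = γ 0 x) →
  (∀ t ∈ Icc (0 : ℝ) 1, ∀ x u, (∀ v, Θ x u v + dd (γ t) x u v = 0) → u = 0) →
  Iso K (fun x => Θ x + dd (γ 0) x) (fun x => Θ x + dd (γ 1) x)

/-- integral over the ray `x - s e`, `s > 0` -/
noncomputable def T1 {E F : Type} [NormedAddCommGroup E] [NormedSpace ℝ E] [NormedAddCommGroup F]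
    [NormedSpace ℝ F] (e : E) (f : E → F) (x : E) : F := ∫ s in Ioi (0 : ℝ), f (x - s • e)

/-- integral over the line `x - r e` -/
noncomputable def TL {E F : Type} [NormedAddCommGroup E] [NormedSpace ℝ E] [NormedAddCommGroup F]
    [NormedSpace ℝ F] (e : E) (f : E → F) (x : E) : F := ∫ r : ℝ, f (x - r • e)

/-- integral over the half plane `x - s e' - r e`, `s > 0` -/
noncomputable def T2 {E F : Type} [NormedAddCommGroup E] [NormedSpace ℝ E] [NormedAddCommGroup F]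
    [NormedSpace ℝ F] (e e' : E) (f : E → F) (x : E) : F :=
  ∫ s in Ioi (0 : ℝ), ∫ r : ℝ, f (x - s • e' - r • e)

/-- PACKET LI (smooth integrals along a ray, a line and a half plane).
Proof.  `T1`, `TL`, `T2` are the convolutions of the constant function `1` with `f` with respect to the locally
finite measure `μ` = image of Lebesgue measure on `(0,∞)`, `ℝ`, `(0,∞) × ℝ` under `s ↦ s e`, `r ↦ r e`,
`(s,r) ↦ s e' + r e` (`e, e'` are linearly independent, so these maps are proper and preimages of bounded sets are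
bounded): `HasCompactSupport.contDiff_convolution_right`, `HasCompactSupport.hasFDerivAt_convolution_right`
(an invariant measure is not needed), `MeasureTheory.integral_map`.  (Alternatively differentiate under the
integral and use induction on the order.)  So `D(T f)(x) u = T (D f(·) u)(x)` for the three operators.  (4), (5): along
the line `d/ds f(x - s e) = -Df(x - s e) e` and `f` has compact support.  (6): exchange the integrals (Fubini, or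
integrate first in `s` after `integral_integral_swap`), then (4) for `e'`.  (7): the inner integral is `0` by (5). -/
def StmtLI : Prop := ∀ (E F : Type) [NormedAddCommGroup E] [NormedSpace ℝ E] [FiniteDimensional ℝ E]
  [NormedAddCommGroup F] [NormedSpace ℝ F] [FiniteDimensional ℝ F] (e e' : E) (f : E → F),
  LinearIndependent ℝ ![e, e'] → ContDiff ℝ ∞ f → HasCompactSupport f →
    (ContDiff ℝ ∞ (T1 e f) ∧ ∀ x u, fderiv ℝ (T1 e f) x u = T1 e (fun y => fderiv ℝ f y u) x) ∧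
    (ContDiff ℝ ∞ (TL e f) ∧ ∀ x u, fderiv ℝ (TL e f) x u = TL e (fun y => fderiv ℝ f y u) x) ∧
    (ContDiff ℝ ∞ (T2 e e' f) ∧
      ∀ x u, fderiv ℝ (T2 e e' f) x u = T2 e e' (fun y => fderiv ℝ f y u) x) ∧
    (∀ x, T1 e (fun y => fderiv ℝ f y e) x = f x) ∧
    (∀ x, TL e (fun y => fderiv ℝ f y e) x = 0) ∧
    (∀ x, T2 e e' (fun y => fderiv ℝ f y e') x = TL e f x) ∧
    (∀ x, T2 e e' (fun y => fderiv ℝ f y e) x = 0)

/-- PACKET POIN (Poincare lemma with support in a cube; from LI).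
Proof.  The norm of `V n` is the maximum norm.  `e = (single 0 1, 0)` (coordinate `ℓ x = x.1 0`),
`e' = (single 1 1, 0)` (coordinate `x.1 1`), `e'' = (0, single 0 1)`.  `η` has compact support.
Closedness with `(e,u,v)`: `D_u η(e,v) - D_v η(e,u) = D_e η(u,v)`; with `(v,e,e')`:
`D_v η(e,e') = D_e η(v,e') + D_{e'} η(e,v)`.
Let `β¹(x) = T1 e (η(·) e)(x)` (an element of `V n →L ℝ`; `β¹(x) v = T1 e (η(·) e v)(x)` by
`ContinuousLinearMap.integral_apply`), `θ(x) = TL e (η(·) e)(x)`, `g(x) = T2 e e' (η(·) e e')(x)`.  By LI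
`dd β¹ x u v = T1 e (D_u η(e,v) - D_v η(e,u)) = T1 e (D_e η(u,v)) = η x u v`, and
`Dg(x) v = T2 (D_v η(e,e')) = T2 (D_e η(v,e')) + T2 (D_{e'} η(e,v)) = 0 + TL e (η(·) e v)(x) = θ(x) v`.
`χ(s) = Real.smoothTransition ((s+R)/(2R))`: `0` for `s ≤ -R`, `1` for `s ≥ R`.
`β(x) = β¹(x) - D(χ(ℓ y) g(y))(x)`, so `dd β = η` (second derivatives are symmetric) and
`β(x) v = β¹(x) v - χ'(ℓ x) (ℓ v) g(x) - χ(ℓ x) θ(x) v`.
`β(x) = 0` for `‖x‖ > R` (then also for `‖x‖ = R` by continuity):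
(i) a coordinate `c` other than `ℓ` and `x.1 1` has `|c(x)| > R`: all integrands vanish, `β¹(x) = θ(x) = 0`,
`g(x) = 0`.  (ii) `|x.1 1| > R`: `β¹(x) = θ(x) = 0`; if `x.1 1 < -R` then `g(x) = 0`; if `x.1 1 > R`: the function
`t ↦ g(x + t e'')` has derivative `θ(x + t e'') e'' = 0`, and it is `0` for large `t` by (i): `g(x) = 0`.
(iii) `ℓ x < -R`: `β¹(x) = 0`, `χ = χ' = 0`.  (iv) `ℓ x > R`: `χ = 1`, `χ' = 0`, `β¹(x) = θ(x)` (the integrand is `0`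
for `s ≤ 0`). -/
def StmtPOIN : Prop := ∀ n : ℕ, 2 ≤ n → ∀ (η : V n → V n →L[ℝ] V n →L[ℝ] ℝ) (R : ℝ), 0 < R →
  ContDiff ℝ ∞ η → (∀ x u, η x u u = 0) →
  (∀ x u v w, fderiv ℝ η x u v w - fderiv ℝ η x v u w + fderiv ℝ η x w u v = 0) →
  (∀ x, R ≤ ‖x‖ → η x = 0) →
  ∃ β : V n → V n →L[ℝ] ℝ, ContDiff ℝ ∞ β ∧ (∀ x, R ≤ ‖x‖ → β x = 0) ∧ ∀ x, dd β x = η x

/-- PACKET MOVE (an inserted form can be moved and scaled; from MOSER, POIN).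
Proof.  `η = B - B0` is smooth, alternating (`B0 = B x` for large `x`), closed, `0` for `‖x‖ ≥ R`: POIN gives `β`.
`τ = Real.smoothTransition`, `c_t = c (τ t)`, `m_t = μ (τ t) > 0` for all `t : ℝ`.
`γ_t(x) = m_t • β (m_t⁻¹ • (x - c_t))` is jointly smooth, `dd γ_t x = η (m_t⁻¹ • (x - c_t))`.  MOSER with `Θ, γ, K`:
if `x ∉ K` then `‖x - c_t‖ > m_t R`, so `γ_t(x) = 0` for all `t`.  Nondegeneracy of `Θ x + η(h)`,
`h = m_t⁻¹ • (x - c_t)`: if `‖h‖ ≤ R` then `x ∈ K`, `Θ x = B0` and it is `B h`; otherwise `η(h) = 0` and it is `Θ x`.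
`Θ + dd γ_0 = ins B0 B Θ (c 0) (μ 0)`. -/
def StmtMOVE : Prop := ∀ n : ℕ, 2 ≤ n → ∀ (B Θ : V n → V n →L[ℝ] V n →L[ℝ] ℝ)
  (B0 : V n →L[ℝ] V n →L[ℝ] ℝ) (R : ℝ) (c : ℝ → V n) (μ : ℝ → ℝ) (K : Set (V n)), 0 < R →
  Symp B → Far R B B0 → Symp Θ → ContDiff ℝ ∞ c → ContDiff ℝ ∞ μ →
  (∀ t ∈ Icc (0 : ℝ) 1, 0 < μ t) → IsCompact K →
  (∀ t ∈ Icc (0 : ℝ) 1, ∀ x, ‖x - c t‖ ≤ μ t * R → x ∈ K) → (∀ x ∈ K, Θ x = B0) →
  Iso K (ins B0 B Θ (c 0) (μ 0)) (ins B0 B Θ (c 1) (μ 1))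

/-! ## Block B: extension of diffeomorphisms (no differential equations) -/

/-- PACKET BLOW (a germ tangent to the identity, blown up and cut off; from SY: GI, IV).
Proof.  `ρ : E → [0,1]` smooth, `ρ = 1` for `‖x‖ ≤ R₀`, `ρ = 0` for `‖x‖ ≥ R₁` (smooth Urysohn, e.g.
`exists_contMDiff_zero_iff_one_iff_of_isClosed` or `exists_contMDiffMap_zero_one_of_isClosed` with the model
`𝓘(ℝ, E)`; choose it with support in a closed ball of radius `< R₁`).  For small `ε` let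
`f(x) = ρ(x) • (ε⁻¹ • ψ(ε x) - x)` (`0` where `ρ = 0`), `P = id + f`.  With `ω(r) = sup_{‖y‖ ≤ r} ‖Dψ(y) - id‖ → 0`:
for `‖x‖ ≤ R₁`: `‖ε⁻¹ ψ(εx) - x‖ ≤ ω(εR₁) R₁` (mean value inequality for `ψ - id`, `ψ 0 = 0`) and the derivative of
`ε⁻¹ ψ(εx) - x` has norm `≤ ω(εR₁)`; so `‖Df‖ ≤ (sup ‖Dρ‖ R₁ + 1) ω(εR₁) ≤ min δ (1/2)`.  Then `DP(x)` is
injective, `P = id` outside a ball: GI, IV. -/
def StmtBLOW : Prop := ∀ (E : Type) [NormedAddCommGroup E] [NormedSpace ℝ E] [FiniteDimensional ℝ E]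
  (ψ : E → E) (W : Set E) (R₀ R₁ δ : ℝ), IsOpen W → (0 : E) ∈ W → ContDiffOn ℝ ∞ ψ W → ψ 0 = 0 →
  fderiv ℝ ψ 0 = ContinuousLinearMap.id ℝ E → 0 < R₀ → R₀ < R₁ → 0 < δ →
  ∃ ε₀ > 0, ∀ ε : ℝ, 0 < ε → ε ≤ ε₀ → ∃ P : E ≃ E, Sm P ∧ (∀ x, R₁ ≤ ‖x‖ → P x = x) ∧
    (∀ x : E, ‖x‖ ≤ R₁ → ε • x ∈ W) ∧ (∀ x : E, ‖x‖ ≤ R₀ → P x = ε⁻¹ • ψ (ε • x)) ∧
    ∀ x : E, ‖fderiv ℝ (fun y => P y) x - ContinuousLinearMap.id ℝ E‖ ≤ δ

/-- PACKET SCALE (a compactly supported diffeomorphism which is a homothety on a ball; from SY: GI, IV).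
Proof.  `ρ` as in BLOW for the radii `R₁ < R₂`, `f_δ(x) = x - δ ρ(x) x`.  The derivative of `ρ(x) x` is bounded (compact
support), so for `0 ≤ δ ≤ δ₀` the derivative of `f_δ` is injective: GI, IV give a diffeomorphism, `= id` for
`‖x‖ ≥ R₂`, `f_δ(x) = (1-δ) x` for `‖x‖ ≤ R₁`.  Choose `N` with `1 - ε^(1/N) ≤ δ₀`, `(1-δ)^N = ε`, `c = f_δ^N`. -/
def StmtSCALE : Prop := ∀ (E : Type) [NormedAddCommGroup E] [NormedSpace ℝ E] [FiniteDimensional ℝ E]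
  (R₁ R₂ ε : ℝ), 0 < R₁ → R₁ < R₂ → 0 < ε → ε ≤ 1 →
  ∃ c : E ≃ E, Sm c ∧ (∀ x, R₂ ≤ ‖x‖ → c x = x) ∧ ∀ x, ‖x‖ ≤ R₁ → c x = ε • x

/-- PACKET CONJ (conjugation of a compactly supported diffeomorphism by an embedding).
Proof.  `c` maps `K` onto `K` and `U` onto `U`.  `C y = ψ (c x)` for `y = ψ x`, `x ∈ U`, and `C y = y` for
`y ∉ ψ '' U`; the inverse is given in the same way by `c.symm`.  `C = id` off `ψ '' K`.  Smooth: `ψ '' U` is open and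
`ψ` has a smooth inverse on it (inverse function theorem, injectivity), `ψ '' K` is compact, and the open sets
`ψ '' U`, `(ψ '' K)ᶜ` cover `E`. -/
def StmtCONJ : Prop := ∀ (E : Type) [NormedAddCommGroup E] [NormedSpace ℝ E] [FiniteDimensional ℝ E]
  (ψ : E → E) (U K : Set E) (c : E ≃ E), IsOpen U → IsCompact K → K ⊆ U → ContDiffOn ℝ ∞ ψ U →
  InjOn ψ U → (∀ x ∈ U, Function.Injective (fderiv ℝ ψ x)) → Sm c → (∀ x, x ∉ K → c x = x) →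
  ∃ C : E ≃ E, Sm C ∧ (∀ y, y ∉ ψ '' K → C y = y) ∧ ∀ x ∈ U, C (ψ x) = ψ (c x)

/-- PACKET PAL (Palais: an embedding of a ball has a compactly supported inverse; from BLOW, SCALE, CONJ).
Proof.  Choose `R < R' < R₁ < R₂` with `closedBall 0 R₂ ⊆ U` (compactness).  BLOW with `W = U`, `R₀ = R'`, `R₁`,
`δ = 1`: `ε ≤ 1` and `P`.  SCALE: `c x = ε x` for `‖x‖ ≤ R'`, `c = id` for `‖x‖ ≥ R₁`.  CONJ with
`K = closedBall 0 R₁`: `C (ψ x) = ψ (c x)` for `x ∈ U`.  SCALE: `s x = ε x` for `‖x‖ ≤ R₁`, `s = id` for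
`‖x‖ ≥ R₂`.  `G = P⁻¹ ∘ s⁻¹ ∘ C`.  If `‖x‖ ≤ R'`: `C (ψ x) = ψ (ε x) = ε (P x)`, `‖P x‖ ≤ R₁` (`P` is bijective and the
identity for `‖·‖ ≥ R₁`), so `s (P x) = ε (P x)`, `s⁻¹ (ε (P x)) = P x`, `G (ψ x) = x`.  All three maps are the identity
far away. -/
def StmtPAL : Prop := ∀ (E : Type) [NormedAddCommGroup E] [NormedSpace ℝ E] [FiniteDimensional ℝ E]
  (ψ : E → E) (U : Set E) (R : ℝ), IsOpen U → 0 < R → closedBall 0 R ⊆ U → ContDiffOn ℝ ∞ ψ U →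
  InjOn ψ U → (∀ x ∈ U, Function.Injective (fderiv ℝ ψ x)) → ψ 0 = 0 →
  fderiv ℝ ψ 0 = ContinuousLinearMap.id ℝ E →
  ∃ (G : E ≃ E) (D R' : ℝ), Sm G ∧ (∀ x, D ≤ ‖x‖ → G x = x) ∧ R < R' ∧
    (∀ x, ‖x‖ ≤ R' → x ∈ U) ∧ ∀ x, ‖x‖ ≤ R' → G (ψ x) = x

/-! ## Block C: the embedding criterion implies invertibility -/

/-- PACKET STR (straightening the inserted form in the chart `ψ`; from MOSER, POIN, BLOW).
Proof.  `R₀ = R + 1`, `R₁ = R + 2`.  There is `δ' ∈ (0,1]` such that for every linear `A : V n → V n` with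
`‖A - id‖ ≤ δ'` and `s ∈ [0,1]` the form `B0(u,v) + s (B0(Au,Av) - B0(u,v))` is nondegenerate: `B0` is nondegenerate,
so by compactness of the unit sphere there is `κ > 0` such that every unit vector `u` has a unit vector `v` with
`|B0(u,v)| ≥ κ`, and `|B0(Au,Av) - B0(u,v)| ≤ 3 ‖B0‖ δ'`.  BLOW with `W, R₀, R₁, δ'` gives `ε₀`; decrease it such that
`ε₀ R₁ < δ`.  Let `ε ≤ ε₀`, `P` from BLOW.  `ζ = pb P (fun _ => B0) - B0` is smooth, alternating, closed (PB, or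
`pb P B0` is closed by the symmetry of `D²P`), `ζ(x) = 0` for `‖x‖ ≥ R₁` (`P = id`; for `‖x‖ = R₁` by continuity), and
`ζ(x) = 0` for `‖x‖ ≤ R₀` (for `‖x‖ < R₀`: `DP(x) = Dψ(εx)` and the hypothesis on `ψ`).  POIN (radius `R₁`): `ζ = dd β`.
MOSER with `Θ = B`, `γ_t = t β`, `K = closedBall 0 R₁`: `B + t ζ` is nondegenerate (for `‖x‖ ≤ R₀` it is `B x`, for
`‖x‖ ≥ R` it is `B0 + t ζ(x)`).  So there is `F` with `F^*(B + ζ) = B`, `F = id` off `closedBall 0 R₁`.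
`M x = ε P(F(x/ε))` is a diffeomorphism, `M = id` for `‖x‖ > ε R₁`, in particular off `closedBall 0 δ`.  Claim
`M^* T = ins B0 B Θ 0 ε`.  If `‖x‖ ≥ δ`: `M = id` near `x`, `T x = Θ x` and `B (x/ε) = B0` (`‖x/ε‖ ≥ δ/ε > R`).
If `‖x‖ < δ`: the right side is `B (x/ε)` (`Θ x = B0`).  With `w = F(x/ε)` (`‖w‖ < δ/ε`, as `F` preserves the ball of
radius `δ/ε > R₁`), `M x = ε P(w)`, `DM(x) = DP(w) DF(x/ε)`, so by `F^*(B + ζ) = B` it is enough to show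
`T(ε P w)(DP(w) a, DP(w) b) = B(w)(a,b) + ζ(w)(a,b)` for `‖w‖ < δ/ε`.  (a) `‖w‖ < R₀`: `ε P w = ψ(εw)`,
`DP(w) = Dψ(εw)`, `ζ(w) = 0` and the last hypothesis (`εw ∈ W`).  (b) `‖w‖ ≥ R₀`: `ε P w` is not `ψ(x')` with
`x' ∈ W`, `‖x'‖ ≤ εR` (`ψ x' = ε P(x'/ε)`, `P` injective, `‖x'/ε‖ ≤ R < ‖w‖`), and `‖ε P w‖ < δ` (`‖P w‖ ≤ max(R₁, ‖w‖)`),
so `T(ε P w) = B0` and both sides are `B0(DP a, DP b)` (`B w = B0`). -/
def StmtSTR : Prop := ∀ n : ℕ, 2 ≤ n → ∀ (B : V n → V n →L[ℝ] V n →L[ℝ] ℝ)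
  (B0 : V n →L[ℝ] V n →L[ℝ] ℝ) (R : ℝ) (ψ : V n → V n) (W : Set (V n)) (δ : ℝ), 0 < R → Symp B →
  Far R B B0 → IsOpen W → (0 : V n) ∈ W → ContDiffOn ℝ ∞ ψ W → ψ 0 = 0 →
  fderiv ℝ ψ 0 = ContinuousLinearMap.id ℝ (V n) →
  (∀ x ∈ W, ∀ u v, B0 (fderiv ℝ ψ x u) (fderiv ℝ ψ x v) = B0 u v) → 0 < δ →
  ∃ ε₀ > 0, ∀ ε : ℝ, 0 < ε → ε ≤ ε₀ → ∀ Θ T : V n → V n →L[ℝ] V n →L[ℝ] ℝ,
    (∀ y, ‖y‖ < δ → Θ y = B0) → (∀ y, δ ≤ ‖y‖ → T y = Θ y) →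
    (∀ y, ‖y‖ < δ → (∀ x ∈ W, ‖x‖ ≤ ε * R → ψ x ≠ y) → T y = B0) →
    (∀ x ∈ W, ∀ u v, T (ψ x) (fderiv ℝ ψ x u) (fderiv ℝ ψ x v) = B (ε⁻¹ • x) u v) →
    Iso (closedBall 0 δ) (ins B0 B Θ 0 ε) T

/-- PACKET NRM (normalization of the embedding; from MOVE, IS).
Proof.  MOVE with `Θ = B0` (constant, `Symp` because `B0 = B x` for large `x`), `c t = (3/4 t R) e₂`,
`μ t = 1 - 3/4 t`, `K = closedBall 0 R` (`‖x - c t‖ ≤ μ t R` implies `‖x‖ ≤ R`): with `ins B0 B (fun _ => B0) 0 1 = B` and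
IS there is a diffeomorphism `κ = id` off `closedBall 0 R` with `κ^* B = (x ↦ B (4 (x - (3/4 R) e₂)))`.  `κ` maps `U`
onto `U`.  `ψ' = ψ ∘ κ` on `U`: `B0(Dψ' u, Dψ' v) = B(4 (x - (3/4 R) e₂)) u v`.  At `x = 0` this is `B0`
(`‖4 · 3/4 R e₂‖ = 3R ≥ R`), so `L = Dψ'(0)` preserves `B0` and is invertible.  `ψ₁(x) = L⁻¹ (ψ'(x) - ψ'(0))`. -/
def StmtNRM : Prop := ∀ n : ℕ, 2 ≤ n → ∀ (B : V n → V n →L[ℝ] V n →L[ℝ] ℝ)
  (B0 : V n →L[ℝ] V n →L[ℝ] ℝ) (R : ℝ) (ψ : V n → V n) (U : Set (V n)) (e₂ : V n), 0 < R → Symp B →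
  Far R B B0 → IsOpen U → closedBall 0 R ⊆ U → ContDiffOn ℝ ∞ ψ U → InjOn ψ U →
  (∀ x ∈ U, ∀ u v, B0 (fderiv ℝ ψ x u) (fderiv ℝ ψ x v) = B x u v) → ‖e₂‖ = 1 →
  ∃ ψ₁ : V n → V n, ContDiffOn ℝ ∞ ψ₁ U ∧ InjOn ψ₁ U ∧ ψ₁ 0 = 0 ∧
    fderiv ℝ ψ₁ 0 = ContinuousLinearMap.id ℝ (V n) ∧
    ∀ x ∈ U, ∀ u v, B0 (fderiv ℝ ψ₁ x u) (fderiv ℝ ψ₁ x v) =
      B ((4 : ℝ) • (x - (3 / 4 * R) • e₂)) u v

/-- PACKET SL1 (the complement; from PAL, PB).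
Proof.  `Dψ(x)` is injective for `x ∈ U` (`B (λ⁻¹(x-q))` is nondegenerate).  PAL: `G, D₀, R'`; `D > max D₀ R`.
`σ = pb G.symm (fun _ => B0)`, symplectic by PB (`Symp (fun _ => B0)` because `B0 = B x` for large `x`).  For
`‖x‖ < R'`: `G.symm = ψ` near `x`, so `σ x = B (λ⁻¹ • (x - q))` (the hypothesis on `ψ`).  Let
`Z x = σ x - (B (λ⁻¹ • (x - q)) - B0)`.  For `‖x‖ < R'`: `Z x = B0`.  For `‖x‖ ≥ R`: `‖x - q‖ ≥ λR`, so `Z x = σ x`.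
Hence `Symp Z` (closed: linear; alternating; nondegenerate in both cases).  For `‖x‖ ≥ D`: `G.symm = id` near `x`,
`σ x = B0`.  `ins B0 B Z q λ = σ`. -/
def StmtSL1 : Prop := ∀ (E : Type) [NormedAddCommGroup E] [NormedSpace ℝ E] [FiniteDimensional ℝ E]
  [Nontrivial E] (B : E → E →L[ℝ] E →L[ℝ] ℝ) (B0 : E →L[ℝ] E →L[ℝ] ℝ) (R : ℝ) (ψ : E → E) (U : Set E)
  (q : E) (lam : ℝ), 0 < R → 0 < lam → ‖q‖ + lam * R ≤ R → Symp B → Far R B B0 → IsOpen U →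
  closedBall 0 R ⊆ U → ContDiffOn ℝ ∞ ψ U → InjOn ψ U → ψ 0 = 0 →
  fderiv ℝ ψ 0 = ContinuousLinearMap.id ℝ E →
  (∀ x ∈ U, ∀ u v, B0 (fderiv ℝ ψ x u) (fderiv ℝ ψ x v) = B (lam⁻¹ • (x - q)) u v) →
  ∃ (G : E ≃ E) (Z : E → E →L[ℝ] E →L[ℝ] ℝ) (D : ℝ), R < D ∧ Sm G ∧
    (∀ x, D ≤ ‖x‖ → G x = x) ∧ (∀ x, ‖x‖ ≤ R → G (ψ x) = x) ∧ Symp Z ∧ Far D Z B0 ∧
    (∀ x, ‖x‖ ≤ R → Z x = B0) ∧ Pull (fun x => G.symm x) (ins B0 B Z q lam) (fun _ => B0)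

/-- PACKET SL2 (sliding the inserted form to infinity; from MOVE, STR, PB, IS).
Notation: `q = (3/4 R) e₂`, `A = closedBall q (R/4)`, `T₀ = D + R + 1`.
Proof.  `σ = ins B0 B Z q (1/4)`; `Iso (closedBall 0 D) σ (fun _ => B0)` (via `G.symm`).  Let `Θ = pb G Z`,
symplectic.  `‖ℓ₂‖`-argument: `s e ∉ A` for all real `s` (`ℓ₂ (s e - q) = -3/4 R`), `0 ∉ A`.
(o) If `G y ∉ A` then `Θ y = B0`: `Z (G y) = σ (G y)` there and `G^* σ = B0`.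
Choose `δ > 0` with `G y ∉ A` for `‖y‖ < δ` (`G 0 = G (ψ 0) = 0`).  `W = ball 0 (R/4)`: for `x ∈ W`,
`‖4 (x - q)‖ ≥ 4 (3/4 - 1/4) R ≥ R`, so `ψ` preserves `B0` on `W`.  STR gives `ε₀`.  `A' = G.symm '' A` is compact and
disjoint from the compact path `c t = G.symm ((t T₀) • e)`, `t ∈ [0,1]`.  Choose `ε ≤ ε₀`, `ε ≤ 1/4`, such that
`ψ (closedBall 0 (εR)) ⊆ ball 0 δ`, and `closedBall (c t) (εR)` is disjoint from `A'` for `t ∈ [0,1]`.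
Chain: (a) `fun _ => B0 ≅ σ`; (b) `σ ≅ ins B0 B Z 0 ε` by MOVE, `Θ := Z`, `c t = (1-t) q`, `μ t = (1-t)/4 + t ε`,
`K = closedBall 0 R` (`Z = B0` there); (c) `T = pb G (ins B0 B Z 0 ε) ≅ ins B0 B Z 0 ε` via `G` (smoothness of this form
is not needed: `Pull G T (ins ..)` holds by definition); (d) `ins B0 B Θ 0 ε ≅ T` by STR: (i) `‖y‖ < δ`: `Θ y = B0` by (o);
(ii) `‖y‖ ≥ δ`: `‖G y‖ > εR` (otherwise `y = ψ (G y)` has norm `< δ`; `G.symm x = ψ x` for `‖x‖ ≤ R`), so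
`ins B0 B Z 0 ε (G y) = Z (G y)`; (iii) `‖y‖ < δ`, `y ≠ ψ x` for all `x ∈ W` with `‖x‖ ≤ εR`: again `‖G y‖ > εR`
(`εR ≤ R/4`: if `‖G y‖ ≤ εR < R/4`.. take `ε < 1/4`), so `T y = Θ y = B0`; (iv) `x ∈ W`: `G ∘ ψ = id` on the ball of
radius `R`, so `T (ψ x) (Dψ u) (Dψ v) = ins B0 B Z 0 ε x u v = B (ε⁻¹ x) u v` (`Z x = B0`).
(e) `ins B0 B Θ 0 ε ≅ ins B0 B Θ (c 1) ε` by MOVE with the path `c`, `μ = ε`,
`K = {y | ∃ t ∈ [0,1], ‖y - c t‖ ≤ εR}` (compact, disjoint from `A'`, so `Θ = B0` on it by (o));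
`c 1 = T₀ e` as `T₀ ≥ D`.  (f) `ins B0 B Θ (T₀ e) ε ≅ ins B0 B Z (T₀ e) ε` via `G`: for `‖y‖ > D` (and by continuity
or `R < D` slack also `= D`) `G = id` near `y`; for `‖y‖ ≤ D`: `‖G y‖ ≤ D`, so both `y` and `G y` have distance
`≥ R + 1 ≥ εR` from `T₀ e`, and both inserted terms vanish.  (g) `ins B0 B Z (T₀ e) ε ≅ ins B0 B Z (T₀ e) 1` by MOVE
(`K = closedBall (T₀ e) R`, `Z = B0` there because `T₀ - R ≥ D`).  IS: compose; the supports are compact, hence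
in some closed ball. -/
def StmtSL2 : Prop := ∀ n : ℕ, 2 ≤ n → ∀ (B Z : V n → V n →L[ℝ] V n →L[ℝ] ℝ)
  (B0 : V n →L[ℝ] V n →L[ℝ] ℝ) (R D : ℝ) (ψ : V n → V n) (G : V n ≃ V n) (e e₂ : V n)
  (ℓ₂ : V n →L[ℝ] ℝ), 0 < R → R < D → Symp B → Far R B B0 → ContDiffOn ℝ ∞ ψ (ball 0 R) → ψ 0 = 0 →
  fderiv ℝ ψ 0 = ContinuousLinearMap.id ℝ (V n) →
  (∀ x, ‖x‖ < R → ∀ u v, B0 (fderiv ℝ ψ x u) (fderiv ℝ ψ x v) =
    B ((4 : ℝ) • (x - (3 / 4 * R) • e₂)) u v) →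
  Sm G → (∀ x, D ≤ ‖x‖ → G x = x) → (∀ x, ‖x‖ ≤ R → G (ψ x) = x) → Symp Z → Far D Z B0 →
  (∀ x, ‖x‖ ≤ R → Z x = B0) →
  Pull (fun x => G.symm x) (ins B0 B Z ((3 / 4 * R) • e₂) (1 / 4)) (fun _ => B0) →
  ‖e‖ = 1 → ‖e₂‖ = 1 → (∀ x, |ℓ₂ x| ≤ ‖x‖) → ℓ₂ e = 0 → ℓ₂ e₂ = 1 →
  ∃ D₁ : ℝ, Iso (closedBall 0 D₁) (ins B0 B Z ((D + R + 1) • e) 1) (fun _ => B0)

/-! ## Block D: the infinite swindle -/

/-- PACKET PAIR (a cancelling pair at any large distance; from MOVE, IS).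
Proof.  `S₀ = 2 (|D₁| + ρ + T₀ + 2)`.  MOVE with `Θ = Z`, `R = ρ`, `c t = (S + t (T₀ - S)) e`, `μ = 1`,
`K = {x | ∃ t ∈ [0,1], ‖x - c t‖ ≤ ρ}` (compact; on it `‖x‖ ≥ T₀ - ρ ≥ ρ`, so `Z = B0`):
`ins B0 B Z (S e) 1 ≅ ins B0 B Z (T₀ e) 1`, and compose with the given isomorphism.  The support is contained in
`closedBall 0 D₁ ∪ K`, where `-|D₁| ≤ ℓ ≤ |D₁|` or `T₀ - ρ ≤ ℓ ≤ S + ρ`, so `|ℓ x - S/2| < S - 1` there. -/
def StmtPAIR : Prop := ∀ n : ℕ, 2 ≤ n → ∀ (B Z : V n → V n →L[ℝ] V n →L[ℝ] ℝ)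
  (B0 : V n →L[ℝ] V n →L[ℝ] ℝ) (ρ D₁ T₀ : ℝ) (e : V n) (ℓ : V n →L[ℝ] ℝ), 0 < ρ → Symp B →
  Far ρ B B0 → Symp Z → Far ρ Z B0 → 2 * ρ ≤ T₀ → ‖e‖ = 1 → ℓ e = 1 → (∀ x, |ℓ x| ≤ ‖x‖) →
  Iso (closedBall 0 D₁) (ins B0 B Z (T₀ • e) 1) (fun _ => B0) →
  ∃ S₀ : ℝ, ∀ S : ℝ, S₀ ≤ S → ∃ F : V n ≃ V n, Sm F ∧
    (∀ x, S - 1 ≤ |ℓ x - S / 2| → F x = x) ∧
    Pull (fun x => F x) (ins B0 B Z (S • e) 1) (fun _ => B0)

/-- PACKET PER (periodic repetition).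
Proof.  `m x = ⌊(ℓ x + S/2) / (2S)⌋ : ℤ`; `Φ x = x` if `m x < 0`, and `Φ x = F (x - (2 m S) e) + (2 m S) e` with
`m = m x` otherwise; the same with `F.symm` for the inverse.  (`F` maps the slab `|ℓ x - S/2| < S - 1` onto itself,
being bijective and the identity outside.)  If `k` is a natural number and `|ℓ x - (2kS + S/2)| ≤ S` then `m x = k`, or
`ℓ x = 2kS + 3S/2` and both formulas give `x`.  If `-(S/2) < ℓ x ≤ -(S/2) + 1` then `m x = 0` and `F x = x`.  Smooth: near every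
point `x₀` the map is given by one formula: by `F (x - (2kS) e) + (2kS) e` on the open slab
`|ℓ x - (2kS + S/2)| < S + 1` (outside `|ℓ x - (2kS + S/2)| ≤ S - 1` both this formula and `Φ` are the identity as
long as `|ℓ x - (2kS + S/2)| < S + 1`, `S ≥ 2`), and by the identity on `ℓ x < -(S/2) + 1`. -/
def StmtPER : Prop := ∀ (E : Type) [NormedAddCommGroup E] [NormedSpace ℝ E] (S : ℝ) (e : E)
  (ℓ : E →L[ℝ] ℝ) (F : E ≃ E), 2 ≤ S → ℓ e = 1 → Sm F → (∀ x, S - 1 ≤ |ℓ x - S / 2| → F x = x) →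
  ∃ Φ : E ≃ E, Sm Φ ∧ (∀ x, ℓ x ≤ -(S / 2) + 1 → Φ x = x) ∧
    ∀ (k : ℕ) (x : E), |ℓ x - (2 * k * S + S / 2)| ≤ S →
      Φ x = F (x - (2 * k * S) • e) + (2 * k * S) • e

/-- PACKET SW (the swindle; from PER, IS).
Proof.  Let `Φ₂` be PER for `F₂` (pairs `B` at `2kS`, `Z` at `(2k+1)S`, `k ≥ 0`) and `Ψ(x) = Φ₁(x - S e) + S e` with
`Φ₁` = PER for `F₁` (pairs `Z` at `(2k+1)S`, `B` at `(2k+2)S`; `Ψ = id` for `ℓ x ≤ S/2 + 1`).  Let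
`W = pb Φ₂ (fun _ => B0)`; `Iso univ W (fun _ => B0)` by definition.  Claim `Pull Ψ W B`, hence `Iso univ W B` and by
IS `Iso univ B (fun _ => B0)`.
Values of `W`: if `|ℓ x - (2kS + S/2)| < S` then `W x = B (x - 2kS e) + (Z (x - (2k+1)S e) - B0)` (on this open slab
`Φ₂` is a translate of `F₂`); if `ℓ x < -(S/2) + 1` then `W x = B0`.  Every `x` is in one of these open sets, except
`ℓ x = 2kS + 3S/2`; there `Φ₂` is the identity in a neighbourhood (`F₂ = id` for `|ℓ - S/2| ≥ S - 1`), so `W x = B0`.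
Since `B x = B0 = Z x` if `|ℓ x| ≥ S/2 (≥ ρ)`, in all cases: if `|ℓ x - 2kS| ≤ S/2` then `W x = B (x - 2kS e)`, if
`|ℓ x - (2k+1)S| ≤ S/2` then `W x = Z (x - (2k+1)S e)`, if `ℓ x ≤ -S/2` then `W x = B0` (`k : ℕ`).
Claim at `x`: if `ℓ x < S/2 + 1`: `Ψ = id` near `x`; `ℓ x ≤ S/2`: `W x = B x`; `S/2 ≤ ℓ x`: `B x = B0` and
`W x = Z (x - S e) = B0` (as `‖x - S e‖ ≥ S - ℓ x ≥ S/2 - 1 ≥ ρ`).  If `|ℓ x - ((2k+1)S + S/2)| < S`, `k ≥ 0`: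
`Ψ` is near `x` the translate of `F₁`, so `B0(DΨ u, DΨ v) = Z (x - (2k+1)S e) + (B (x - (2k+2)S e) - B0)` evaluated at
`u, v`, and this is `W x` (two cases `ℓ x ≤ (2k+1)S + S/2` or `≥`), and `B (Ψ x) = B0` as `ℓ (Ψ x) ≥ S/2` (`F₁` maps the
slab `|ℓ - S/2| < S` onto itself).  At `ℓ x = (2k+1)S + 3S/2`: `Ψ = id` near `x`, `W x = B0` (by the values above:
`|ℓ x - (2k+2)S| = S/2`), `B x = B0`. -/
def StmtSW : Prop := ∀ (E : Type) [NormedAddCommGroup E] [NormedSpace ℝ E] [FiniteDimensional ℝ E]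
  (B Z : E → E →L[ℝ] E →L[ℝ] ℝ) (B0 : E →L[ℝ] E →L[ℝ] ℝ) (ρ S : ℝ) (e : E) (ℓ : E →L[ℝ] ℝ)
  (F₁ F₂ : E ≃ E), 0 < ρ → 2 * ρ + 2 ≤ S → Far ρ B B0 → Far ρ Z B0 → ℓ e = 1 →
  (∀ x, |ℓ x| ≤ ‖x‖) → Sm F₁ → Sm F₂ → (∀ x, S - 1 ≤ |ℓ x - S / 2| → F₁ x = x) →
  (∀ x, S - 1 ≤ |ℓ x - S / 2| → F₂ x = x) →
  Pull (fun x => F₁ x) (fun x => Z x + (B (x - S • e) - B0)) (fun _ => B0) →
  Pull (fun x => F₂ x) (fun x => B x + (Z (x - S • e) - B0)) (fun _ => B0) →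
  Iso univ B (fun _ => B0)

/-! ## Block E: assembly -/

/-- PACKET CORE (local embedding implies standard and invertible; from NRM, SL1, SL2, PAIR, SW, MOVE, IS).
Proof.  `e₁ = (single 0 1, 0)`, `ℓ₁ x = x.1 0`, `e₂ = (single 1 1, 0)`, `ℓ₂ x = x.1 1` (maximum norm).  NRM, then SL1 with
`q = (3/4 R) e₂`, `lam = 1/4`: `G, Z, D`.  For `e = e₁` and for `e = -e₁`: SL2 gives
`Iso (closedBall 0 D₁) (ins B0 B Z ((D+R+1) e) 1) (fun _ => B0)`.  Second claim: `q = (D+R+1) e₁`, `ρ = D`.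
First claim: let `ρ = D` (`Far D B B0` as `R < D`), `T₀ = 2D + R + 1`.  MOVE with `Θ = Z`,
`c t = (T₀ + t (D + R + 1 - T₀)) e`, `μ = 1`, `K = {x | ∃ t ∈ [0,1], ‖x - c t‖ ≤ R}` (compact, `‖x‖ ≥ D + 1` on it, so
`Z = B0`), and IS: `Iso (closedBall 0 D₂) (ins B0 B Z (T₀ e) 1) (fun _ => B0)`.  PAIR for `e₁, ℓ₁` gives `F₁`; PAIR for
`-e₁, -ℓ₁` gives `F'` (same `S`, large), the identity for `|-ℓ₁ x - S/2| ≥ S - 1`.  `F₂ x = F' (x - S e₁) + S e₁` is the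
identity for `|ℓ₁ x - S/2| ≥ S - 1`, and `F₂^* B0` at `x` is `Z (x - S e₁) + (B (x - S e₁ + S e₁) - B0)`.  SW. -/
def StmtCORE : Prop := ∀ n : ℕ, 2 ≤ n → ∀ (B : V n → V n →L[ℝ] V n →L[ℝ] ℝ)
  (B0 : V n →L[ℝ] V n →L[ℝ] ℝ) (R : ℝ) (ψ : V n → V n) (U : Set (V n)), 0 < R → Symp B →
  Far R B B0 → IsOpen U → closedBall 0 R ⊆ U → ContDiffOn ℝ ∞ ψ U → InjOn ψ U →
  (∀ x ∈ U, ∀ u v, B0 (fderiv ℝ ψ x u) (fderiv ℝ ψ x v) = B x u v) →
  Iso univ B (fun _ => B0) ∧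
  ∃ (Z : V n → V n →L[ℝ] V n →L[ℝ] ℝ) (ρ : ℝ) (q : V n) (K : Set (V n)), Symp Z ∧ Far ρ Z B0 ∧
    R + ρ < ‖q‖ ∧ IsCompact K ∧ Iso K (ins B0 B Z q 1) (fun _ => B0)

/-- PACKET AV (bilinear alternating maps as alternating maps).
Proof.  `L' b` = one half of the alternatization of the multilinear map `m ↦ b (m 0) (m 1)`
(`ContinuousMultilinearMap.alternatization` or the algebraic version and finite dimension:
`LinearMap.toContinuousLinearMap`); for alternating `b`: `(b u v - b v u)/2 = b u v`. -/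
def StmtAV : Prop := ∀ n : ℕ, ∃ L' : (V n →L[ℝ] V n →L[ℝ] ℝ) →L[ℝ] (V n [⋀^Fin 2]→L[ℝ] ℝ),
  ∀ b : V n →L[ℝ] V n →L[ℝ] ℝ, (∀ u, b u u = 0) → ∀ u v : V n, L' b ![u, v] = b u v

/-- `η` is standard outside the closed cube of half side `R` -/
def Outside {n : ℕ} (η : Form n) (R : ℝ) : Prop := ∀ x, R < ‖x‖ → ∀ u v : V n, η x ![u, v] = w0 u v

/-- `(ℝ^(2n), η)` embeds symplectically into `(ℝ^(2n), w0)` -/
def Embeds {n : ℕ} (η : Form n) : Prop := ∃ ψ : V n → V n, ContDiff ℝ ∞ ψ ∧ Function.Injective ψ ∧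
  ∀ x u v, w0 (fderiv ℝ ψ x u) (fderiv ℝ ψ x v) = η x ![u, v]

/-- a neighbourhood of the closed cube of half side `R`, with the form `η`, embeds symplectically -/
def EmbedsNear {n : ℕ} (η : Form n) (R : ℝ) : Prop := ∃ (U : Set (V n)) (ψ : V n → V n), IsOpen U ∧
  closedBall 0 R ⊆ U ∧ ContDiffOn ℝ ∞ ψ U ∧ InjOn ψ U ∧
  ∀ x ∈ U, ∀ u v, w0 (fderiv ℝ ψ x u) (fderiv ℝ ψ x v) = η x ![u, v]

/-- some `η'` standard at infinity, with `η` inserted far away, is isomorphic to the standard form, by a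
diffeomorphism of compact support if `c` holds -/
def Invertible {n : ℕ} (η : Form n) (R : ℝ) (c : Prop) : Prop :=
  ∃ (η' : Form n) (R' : ℝ) (q : V n) (φ : V n ≃ V n), StdAtInf η' ∧ Outside η' R' ∧ R + R' < ‖q‖ ∧
    Sm φ ∧ (c → ∃ K : Set (V n), IsCompact K ∧ ∀ x, x ∉ K → φ x = x) ∧
    ∀ x u v, w0 (fderiv ℝ (fun y => φ y) x u) (fderiv ℝ (fun y => φ y) x v) =
      η' x ![u, v] + (η (x - q) ![u, v] - w0 u v)

/-- PACKET FIN (the final theorem; from CORE, AV, SY: CV, CW).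
Proof.  `B, B0` from CW (the radius there is replaced: `Far R B B0` from `Outside η R` and continuity, `R > 0`).
1 → 2 → 3: restrict.  3 → 1, 3 → 4: CORE (`Iso univ` is `Standard`; `Z` is turned into `η' = L' ∘ Z` with AV,
`Outside η' ρ`; `fderiv ℝ η' x u = L' (fderiv ℝ Z x u)`, and `fderiv ℝ Z x u` is alternating as a derivative of
alternating forms).  4 → 5: clear.  5 → 3: `U = ball 0 r` with `R < r`, `r + R' ≤ ‖q‖`, `ψ x = φ (x + q)`: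
`w0(Dψ u, Dψ v) = η' (x + q) + (η x - w0) = η x`, as `‖x + q‖ > R'`. -/
def StmtFIN : Prop := ∀ n : ℕ, 2 ≤ n → ∀ (η : Form n) (R : ℝ), 0 < R → StdAtInf η → Outside η R →
  [Standard η, Embeds η, EmbedsNear η R, Invertible η R True, Invertible η R False].TFAE

end Pool.Agent.Helper97.SZ
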