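import Pool.Agent.Helper97.SZ.GEN

/-!
# Project SZ: the attractor (skeleton) criterion
-/

set_option autoImplicit false

open Set Filter Topology Metric MeasureTheory
open scoped ContDiff NNReal ENNReal

namespace Pool.Agent.Helper97.SZ

open Pool.Agent.Helper91.SY

/-- the diffeomorphism `f` multiplies `η` by `c > 0`, and iterates of `f` map the closed cube of half side `R`
into every neighbourhood of the compact set `K` -/
structure Attr {n : ℕ} (η : Form n) (R : ℝ) (f : V n ≃ V n) (c : ℝ) (K : Set (V n)) : Prop where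
  sm : Sm f
  pos : 0 < c
  conf : ∀ x u v, η (f x) ![fderiv ℝ (fun y => f y) x u, fderiv ℝ (fun y => f y) x v] =
    c * η x ![u, v]
  cpt : IsCompact K
  att : ∀ N : Set (V n), IsOpen N → K ⊆ N → ∃ k : ℕ, ∀ x, ‖x‖ ≤ R → (fun y => f y)^[k] x ∈ N

/-- a Liouville flow which contracts everything to a point -/
def PointFlow {n : ℕ} (η : Form n) : Prop := ∃ (Φ : ℝ → V n → V n) (p : V n),
  ContDiff ℝ ∞ (fun z : ℝ × V n => Φ z.1 z.2) ∧ (∀ x, Φ 0 x = x) ∧
  (∀ s t x, Φ (s + t) x = Φ s (Φ t x)) ∧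
  (∀ t x u v, η (Φ t x) ![fderiv ℝ (Φ t) x u, fderiv ℝ (Φ t) x v] = Real.exp t * η x ![u, v]) ∧
  ∀ r : ℝ, ∀ N ∈ 𝓝 p, ∃ T : ℝ, ∀ t, T ≤ t → ∀ x, ‖x‖ ≤ r → Φ (-t) x ∈ N

/-- a Liouville flow which pushes the closed cube of half side `R` to the compact set `K` -/
structure SkelFlow {n : ℕ} (η : Form n) (R : ℝ) (Φ : ℝ → V n → V n) (K : Set (V n)) : Prop where
  smooth : ContDiff ℝ ∞ (fun z : ℝ × V n => Φ z.1 z.2)
  zero : ∀ x, Φ 0 x = x
  add : ∀ s t x, Φ (s + t) x = Φ s (Φ t x)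
  conf : ∀ t x u v, η (Φ t x) ![fderiv ℝ (Φ t) x u, fderiv ℝ (Φ t) x v] = Real.exp t * η x ![u, v]
  cpt : IsCompact K
  att : ∀ N : Set (V n), IsOpen N → K ⊆ N → ∃ T : ℝ, ∀ t, T ≤ t → ∀ x, ‖x‖ ≤ R → Φ (-t) x ∈ N

/-- small attractor -/
def SmallAttr {n : ℕ} (η : Form n) (R : ℝ) : Prop := ∃ (f : V n ≃ V n) (c : ℝ) (K : Set (V n)),
  Attr η R f c K ∧ μH[2 * n] (K ×ˢ K) = 0

/-- an attractor with a neighbourhood which embeds in the standard space -/
def AttrEmbeds {n : ℕ} (η : Form n) (R : ℝ) : Prop := ∃ (f : V n ≃ V n) (c : ℝ) (K : Set (V n)),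
  Attr η R f c K ∧ ∃ (N : Set (V n)) (ψ : V n → V n), IsOpen N ∧ K ⊆ N ∧ ContDiffOn ℝ ∞ ψ N ∧
    InjOn ψ N ∧ ∀ x ∈ N, ∀ u v, w0 (fderiv ℝ ψ x u) (fderiv ℝ ψ x v) = η x ![u, v]

/-- an attractor which is displaced by a symplectic embedding of a neighbourhood -/
def AttrDisp {n : ℕ} (η : Form n) (R : ℝ) : Prop := ∃ (f : V n ≃ V n) (c : ℝ) (K : Set (V n)),
  Attr η R f c K ∧ ∃ (N : Set (V n)) (ψ : V n → V n), IsOpen N ∧ K ⊆ N ∧ ContDiffOn ℝ ∞ ψ N ∧
    InjOn ψ N ∧
    (∀ x ∈ N, ∀ u v, η (ψ x) ![fderiv ℝ ψ x u, fderiv ℝ ψ x v] = η x ![u, v]) ∧ ∀ x ∈ K, ψ x ∉ K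

theorem Attr.iter {n : ℕ} {η : Form n} {R : ℝ} {f : V n ≃ V n} {c : ℝ} {K : Set (V n)}
    (h : Attr η R f c K) (k : ℕ) : ∃ F : V n ≃ V n, Sm F ∧ (∀ x, F x = (fun y => f y)^[k] x) ∧
      ∀ x u v, η (F x) ![fderiv ℝ (fun y => F y) x u, fderiv ℝ (fun y => F y) x v] =
        c ^ k * η x ![u, v] := by
  induction k with
  | zero =>
    refine ⟨Equiv.refl _, ⟨contDiff_id, contDiff_id⟩, fun x => rfl, ?_⟩
    intro x u v
    have h1 : fderiv ℝ (fun x : V n => (Equiv.refl (V n)) x) x = ContinuousLinearMap.id ℝ (V n) :=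
      fderiv_id
    rw [h1, pow_zero, one_mul]
    rfl
  | succ k ih =>
    obtain ⟨F, hF, hFx, hFc⟩ := ih
    refine ⟨F.trans f, ⟨h.sm.1.comp hF.1, hF.2.comp h.sm.2⟩, ?_, ?_⟩
    · intro x
      rw [Function.iterate_succ_apply', ← hFx]
      rfl
    · intro x u v
      have h1 : fderiv ℝ (fun x => (F.trans f) x) x =
          (fderiv ℝ (fun x => f x) (F x)).comp (fderiv ℝ (fun x => F x) x) := by
        have h2 : HasFDerivAt (fun y => f y) (fderiv ℝ (fun x => f x) (F x)) (F x) :=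
          (h.sm.1.differentiable (by simp)).differentiableAt.hasFDerivAt
        have h3 : HasFDerivAt (fun y => F y) (fderiv ℝ (fun x => F x) x) x :=
          (hF.1.differentiable (by simp)).differentiableAt.hasFDerivAt
        exact (h2.comp x h3).fderiv
      rw [h1]
      have h4 := h.conf (F x) (fderiv ℝ (fun y => F y) x u) (fderiv ℝ (fun y => F y) x v)
      rw [hFc] at h4
      rw [pow_succ]
      refine h4.trans ?_
      ring

/-- an embedding of a neighbourhood of the attractor gives one of a neighbourhood of the cube -/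
theorem attrEmbeds_embeds {n : ℕ} {η : Form n} {R : ℝ} (h : AttrEmbeds η R) : EmbedsNear η R := by
  obtain ⟨f, c, K, hA, N, ψ, hN, hKN, hψ, hi, hp⟩ := h
  obtain ⟨k, hk⟩ := hA.att N hN hKN
  obtain ⟨F, hF, hFx, hFc⟩ := hA.iter k
  have hck : 0 < c ^ k := pow_pos hA.pos k
  set s : ℝ := (Real.sqrt (c ^ k))⁻¹ with hs
  have hs0 : s ≠ 0 := inv_ne_zero (Real.sqrt_ne_zero'.2 hck)
  have hs2 : s * s * c ^ k = 1 := by
    rw [hs, ← mul_inv, Real.mul_self_sqrt hck.le, inv_mul_cancel₀ hck.ne']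
  refine ⟨(fun x => F x) ⁻¹' N, fun x => s • ψ (F x), hN.preimage hF.1.continuous, ?_, ?_, ?_, ?_⟩
  · intro x hx
    show F x ∈ N
    rw [hFx]
    exact hk x (by rwa [mem_closedBall_zero_iff] at hx)
  · have h1 : ContDiffOn ℝ ∞ (fun x => ψ (F x)) ((fun x => F x) ⁻¹' N) :=
      hψ.comp hF.1.contDiffOn fun x hx => hx
    exact h1.const_smul s
  · intro x hx y hy hxy
    have h1 : ψ (F x) = ψ (F y) := smul_right_injective (V n) hs0 hxy
    exact F.injective (hi hx hy h1)
  · intro x hx u v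
    have hψd : HasFDerivAt ψ (fderiv ℝ ψ (F x)) (F x) :=
      ((hψ.contDiffAt (hN.mem_nhds hx)).differentiableAt (by simp)).hasFDerivAt
    have hFd : HasFDerivAt (fun y => F y) (fderiv ℝ (fun y => F y) x) x :=
      (hF.1.differentiable (by simp)).differentiableAt.hasFDerivAt
    have h1 : fderiv ℝ (fun x => s • ψ (F x)) x =
        s • (fderiv ℝ ψ (F x)).comp (fderiv ℝ (fun y => F y) x) :=
      ((hψd.comp x hFd).const_smul s).fderiv
    rw [h1]
    have h2 : ∀ a b : V n, w0 (s • a) (s • b) = s * s * w0 a b := by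
      intro a b
      unfold w0
      rw [Finset.mul_sum]
      refine Finset.sum_congr rfl fun i _ => ?_
      simp only [Prod.smul_fst, Prod.smul_snd, Pi.smul_apply, smul_eq_mul]
      ring
    show w0 (s • fderiv ℝ ψ (F x) (fderiv ℝ (fun y => F y) x u))
      (s • fderiv ℝ ψ (F x) (fderiv ℝ (fun y => F y) x v)) = _
    rw [h2, hp (F x) hx, hFc, ← mul_assoc, hs2, one_mul]

/-- a displacement of the attractor gives one of the cube -/
theorem attrDisp_disp {n : ℕ} {η : Form n} {R : ℝ} (h : AttrDisp η R) : LocDisp η R := by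
  obtain ⟨f, c, K, hA, N, ψ, hN, hKN, hψ, hi, hp, hd⟩ := h
  have hcK : IsCompact (ψ '' K) := hA.cpt.image_of_continuousOn (hψ.continuousOn.mono hKN)
  have hdis : Disjoint K (ψ '' K) := by
    rw [Set.disjoint_right]
    rintro _ ⟨x, hx, rfl⟩
    exact hd x hx
  obtain ⟨A, A', hAo, hAo', hKA, hKA', hAA⟩ := SeparatedNhds.of_isCompact_isCompact hA.cpt hcK hdis
  set N' : Set (V n) := (N ∩ ψ ⁻¹' A') ∩ A with hN'
  have hN'o : IsOpen N' := (hψ.continuousOn.isOpen_inter_preimage hN hAo').inter hAo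
  have hKN' : K ⊆ N' := fun x hx => ⟨⟨hKN hx, hKA' (mem_image_of_mem ψ hx)⟩, hKA hx⟩
  obtain ⟨k, hk⟩ := hA.att N' hN'o hKN'
  obtain ⟨F, hF, hFx, hFc⟩ := hA.iter k
  have hck : 0 < c ^ k := pow_pos hA.pos k
  refine ⟨(fun x => F x) ⁻¹' N', fun x => F.symm (ψ (F x)), hN'o.preimage hF.1.continuous,
    ?_, ?_, ?_, ?_, ?_⟩
  · intro x hx
    show F x ∈ N'
    rw [hFx]
    exact hk x (by rwa [mem_closedBall_zero_iff] at hx)
  · have h1 : ContDiffOn ℝ ∞ (fun x => ψ (F x)) ((fun x => F x) ⁻¹' N') :=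
      (hψ.mono fun x hx => hx.1.1).comp hF.1.contDiffOn fun x hx => hx
    exact hF.2.comp_contDiffOn h1
  · intro x hx y hy hxy
    exact F.injective (hi hx.1.1 hy.1.1 (F.symm.injective hxy))
  · intro x hx u v
    have hψd : HasFDerivAt ψ (fderiv ℝ ψ (F x)) (F x) :=
      ((hψ.contDiffAt (hN.mem_nhds hx.1.1)).differentiableAt (by simp)).hasFDerivAt
    have hFd : ∀ y, HasFDerivAt (fun y => F y) (fderiv ℝ (fun y => F y) y) y := fun y =>
      (hF.1.differentiable (by simp)).differentiableAt.hasFDerivAt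
    have hFsd : ∀ y, HasFDerivAt (fun y => F.symm y) (fderiv ℝ (fun y => F.symm y) y) y := fun y =>
      (hF.2.differentiable (by simp)).differentiableAt.hasFDerivAt
    have h1 : fderiv ℝ (fun x => F.symm (ψ (F x))) x =
        (fderiv ℝ (fun y => F.symm y) (ψ (F x))).comp
          ((fderiv ℝ ψ (F x)).comp (fderiv ℝ (fun y => F y) x)) :=
      ((hFsd (ψ (F x))).comp x (hψd.comp x (hFd x))).fderiv
    rw [h1]
    have h2 : ∀ w, fderiv ℝ (fun y => F y) (F.symm (ψ (F x)))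
        (fderiv ℝ (fun y => F.symm y) (ψ (F x)) w) = w := by
      intro w
      exact fderiv_inv (f := fun y => F.symm y) (g := fun y => F y) (hFsd _).differentiableAt
        (hFd _).differentiableAt (Eventually.of_forall fun z => F.apply_symm_apply z) w
    have h3 := hFc (F.symm (ψ (F x)))
      (fderiv ℝ (fun y => F.symm y) (ψ (F x)) (fderiv ℝ ψ (F x) (fderiv ℝ (fun y => F y) x u)))
      (fderiv ℝ (fun y => F.symm y) (ψ (F x)) (fderiv ℝ ψ (F x) (fderiv ℝ (fun y => F y) x v)))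
    rw [h2, h2, Equiv.apply_symm_apply, hp (F x) hx.1.1, hFc] at h3
    exact (mul_left_cancel₀ hck.ne' h3).symm
  · intro x hx
    by_contra hcon
    rw [not_lt] at hcon
    have h1 : F x ∈ N' := by
      rw [hFx]
      exact hk x hx
    have h2 : F (F.symm (ψ (F x))) ∈ N' := by
      rw [hFx]
      exact hk _ hcon
    rw [Equiv.apply_symm_apply] at h2
    exact Set.disjoint_left.1 hAA h2.2 h1.1.2

/-- small attractors are displaceable -/
theorem small_disp (hTO : StmtTO) (hHV : StmtHV) (hCW : StmtCW) {n : ℕ} {η : Form n} {R : ℝ}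
    (hη : StdAtInf η) (h : SmallAttr η R) : AttrDisp η R := by
  obtain ⟨f, c, K, hA, hK⟩ := h
  obtain ⟨B, B0, R₁, hR₁, hB, hfar, hBη, hB0⟩ := hCW n η hη
  obtain ⟨g, hg, hgp, hgK⟩ := gen hTO hHV hR₁ hB hfar hA.cpt hK
  refine ⟨f, c, K, hA, univ, fun x => g x, isOpen_univ, subset_univ _, hg.1.contDiffOn,
    g.injective.injOn, ?_, hgK⟩
  intro x _ u v
  rw [← hBη, ← hBη]
  exact hgp x u v

/-- the skeleton of a Liouville flow is an attractor -/
theorem skelFlow_attr {n : ℕ} {η : Form n} {R : ℝ} {Φ : ℝ → V n → V n} {K : Set (V n)}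
    (h : SkelFlow η R Φ K) : ∃ (f : V n ≃ V n) (c : ℝ), Attr η R f c K := by
  obtain ⟨hs, h0, hadd, hc, hK, hatt⟩ := h
  have hsm : ∀ t : ℝ, ContDiff ℝ ∞ (fun x => Φ t x) := fun t =>
    hs.comp (contDiff_const.prodMk contDiff_id)
  let f : V n ≃ V n :=
    { toFun := fun x => Φ (-1) x
      invFun := fun x => Φ 1 x
      left_inv := fun x => by
        show Φ 1 (Φ (-1) x) = x
        rw [← hadd, add_neg_cancel, h0]
      right_inv := fun x => by
        show Φ (-1) (Φ 1 x) = x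
        rw [← hadd, neg_add_cancel, h0] }
  have hit : ∀ (k : ℕ) x, (fun y => f y)^[k] x = Φ (-(k : ℝ)) x := by
    intro k
    induction k with
    | zero =>
      intro x
      rw [Nat.cast_zero, neg_zero, h0]
      rfl
    | succ k ih =>
      intro x
      rw [Function.iterate_succ_apply', ih]
      show Φ (-1) (Φ (-(k : ℝ)) x) = _
      rw [← hadd]
      congr 1
      push_cast
      ring
  refine ⟨f, Real.exp (-1), ⟨⟨hsm (-1), hsm 1⟩, Real.exp_pos _, fun x u v => hc (-1) x u v,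
    hK, ?_⟩⟩
  intro N hN hpN
  obtain ⟨T, hT⟩ := hatt N hN hpN
  obtain ⟨k, hk⟩ := exists_nat_ge T
  refine ⟨k, fun x hx => ?_⟩
  rw [hit]
  exact hT k hk x hx

theorem pointFlow_skel {n : ℕ} {η : Form n} (h : PointFlow η) (R : ℝ) :
    ∃ (Φ : ℝ → V n → V n) (p : V n), SkelFlow η R Φ {p} := by
  obtain ⟨Φ, p, hs, h0, hadd, hc, hatt⟩ := h
  exact ⟨Φ, p, hs, h0, hadd, hc, isCompact_singleton, fun N hN hpN =>
    hatt R N (hN.mem_nhds (hpN rfl))⟩

/-- the point of a contracting Liouville flow is an attractor -/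
theorem pointFlow_attr {n : ℕ} {η : Form n} (h : PointFlow η) (R : ℝ) :
    ∃ (f : V n ≃ V n) (c : ℝ) (p : V n), Attr η R f c {p} := by
  obtain ⟨Φ, p, hΦ⟩ := pointFlow_skel h R
  obtain ⟨f, c, hA⟩ := skelFlow_attr hΦ
  exact ⟨f, c, p, hA⟩

theorem pointFlow_small {n : ℕ} (hn : 1 ≤ n) {η : Form n} (h : PointFlow η) (R : ℝ) :
    SmallAttr η R := by
  obtain ⟨f, c, p, hA⟩ := pointFlow_attr h R
  refine ⟨f, c, {p}, hA, ?_⟩
  have hd : (0 : ℝ) < 2 * n := by
    have : (1 : ℝ) ≤ n := by exact_mod_cast hn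
    linarith
  have := Measure.nullSingletonClass_hausdorff (V n × V n) hd
  rw [singleton_prod_singleton]
  exact measure_singleton _

/-- a standard form has a contracting Liouville flow -/
theorem standard_pointFlow {n : ℕ} {η : Form n} (h : Standard η) : PointFlow η := by
  obtain ⟨φ, hφ, hp⟩ := h
  refine ⟨fun t x => φ.symm (Real.exp (t / 2) • φ x), φ.symm 0, ?_, ?_, ?_, ?_, ?_⟩
  · have h1 : ContDiff ℝ ∞ (fun z : ℝ × V n => Real.exp (z.1 / 2)) :=
      Real.contDiff_exp.comp (contDiff_fst.div_const 2)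
    have h2 : ContDiff ℝ ∞ (fun z : ℝ × V n => φ z.2) := hφ.1.comp contDiff_snd
    exact hφ.2.comp (h1.smul h2)
  · intro x
    simp
  · intro s t x
    simp only [Equiv.apply_symm_apply, smul_smul]
    rw [← Real.exp_add, ← add_div]
  · intro t x u v
    have hφd : ∀ y, HasFDerivAt (fun y => φ y) (fderiv ℝ (fun y => φ y) y) y := fun y =>
      (hφ.1.differentiable (by simp)).differentiableAt.hasFDerivAt
    have hφsd : ∀ y, HasFDerivAt (fun y => φ.symm y) (fderiv ℝ (fun y => φ.symm y) y) y := fun y =>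
      (hφ.2.differentiable (by simp)).differentiableAt.hasFDerivAt
    have h1 : fderiv ℝ (fun x => φ.symm (Real.exp (t / 2) • φ x)) x =
        (fderiv ℝ (fun y => φ.symm y) (Real.exp (t / 2) • φ x)).comp
          (Real.exp (t / 2) • fderiv ℝ (fun y => φ y) x) :=
      ((hφsd (Real.exp (t / 2) • φ x)).comp x ((hφd x).const_smul (Real.exp (t / 2)))).fderiv
    show η (φ.symm (Real.exp (t / 2) • φ x)) ![fderiv ℝ (fun x => φ.symm (Real.exp (t / 2) • φ x)) x u,
      fderiv ℝ (fun x => φ.symm (Real.exp (t / 2) • φ x)) x v] = _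
    rw [h1, ← hp, ← hp]
    have h2 : ∀ w, fderiv ℝ (fun y => φ y) (φ.symm (Real.exp (t / 2) • φ x))
        (((fderiv ℝ (fun y => φ.symm y) (Real.exp (t / 2) • φ x)).comp
          (Real.exp (t / 2) • fderiv ℝ (fun y => φ y) x)) w) =
        Real.exp (t / 2) • fderiv ℝ (fun y => φ y) x w := by
      intro w
      exact fderiv_inv (f := fun y => φ.symm y) (g := fun y => φ y) (hφsd _).differentiableAt
        (hφd _).differentiableAt (Eventually.of_forall fun z => φ.apply_symm_apply z)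
        (Real.exp (t / 2) • fderiv ℝ (fun y => φ y) x w)
    rw [h2, h2]
    have h3 : Real.exp t = Real.exp (t / 2) * Real.exp (t / 2) := by
      rw [← Real.exp_add, add_halves]
    rw [h3]
    unfold w0
    rw [Finset.mul_sum]
    refine Finset.sum_congr rfl fun i _ => ?_
    simp only [Prod.smul_fst, Prod.smul_snd, Pi.smul_apply, smul_eq_mul]
    ring
  · intro r N hN
    have hC : IsCompact ((fun x => φ x) '' closedBall (0 : V n) r) :=
      (isCompact_closedBall _ _).image hφ.1.continuous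
    obtain ⟨M, hM⟩ := hC.isBounded.subset_closedBall (0 : V n)
    have hM' : ∀ x : V n, ‖x‖ ≤ r → ‖φ x‖ ≤ max M 1 := by
      intro x hx
      have h1 := hM (mem_image_of_mem (fun x => φ x) (by rwa [mem_closedBall_zero_iff]))
      rw [mem_closedBall_zero_iff] at h1
      exact h1.trans (le_max_left _ _)
    have hM0 : 0 < max M 1 := lt_of_lt_of_le one_pos (le_max_right _ _)
    obtain ⟨δ, hδ, hδN⟩ := Metric.mem_nhds_iff.1
      (hφ.2.continuous.continuousAt.preimage_mem_nhds (x := (0 : V n)) hN)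
    have ht : Tendsto (fun t : ℝ => Real.exp (-t / 2) * max M 1) atTop (𝓝 (0 * max M 1)) := by
      apply Tendsto.mul_const
      apply Real.tendsto_exp_atBot.comp
      have h1 : Tendsto (fun t : ℝ => -t) atTop atBot := tendsto_neg_atTop_atBot
      exact h1.atBot_div_const (by norm_num)
    rw [zero_mul] at ht
    obtain ⟨T, hT⟩ := (ht.eventually (gt_mem_nhds hδ)).exists_forall_of_atTop
    refine ⟨T, fun t htT x hx => ?_⟩
    apply hδN
    rw [mem_ball_zero_iff, norm_smul, Real.norm_eq_abs, abs_of_pos (Real.exp_pos _)]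
    refine lt_of_le_of_lt ?_ (hT t htT)
    exact mul_le_mul_of_nonneg_left (hM' x hx) (Real.exp_pos _).le

/-- the attractor criterion -/
def StmtATT : Prop := ∀ n : ℕ, 2 ≤ n → ∀ (η : Form n) (R : ℝ), 0 < R → StdAtInf η → Outside η R →
  [Standard η, PointFlow η, SmallAttr η R, AttrEmbeds η R, AttrDisp η R].TFAE

theorem att (hTO : StmtTO) (hHV : StmtHV) (hCW : StmtCW) (hFIN : StmtFIN) (hDISP : StmtDISP) :
    StmtATT := by
  intro n hn η R hR hη ho
  tfae_have 1 → 2 := standard_pointFlow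
  tfae_have 2 → 3 := fun h => pointFlow_small (by omega) h R
  tfae_have 3 → 5 := small_disp hTO hHV hCW hη
  tfae_have 5 → 1 := fun h => ((hDISP n hn η R hR hη ho).out 3 0).1 (attrDisp_disp h)
  tfae_have 1 → 4 := fun h => by
    obtain ⟨f, c, p, hA⟩ := pointFlow_attr (standard_pointFlow h) R
    obtain ⟨φ, hφ, hp⟩ := h
    exact ⟨f, c, {p}, hA, univ, fun x => φ x, isOpen_univ, subset_univ _, hφ.1.contDiffOn,
      φ.injective.injOn, fun x _ => hp x⟩
  tfae_have 4 → 1 := fun h => ((hFIN n hn η R hR hη ho).out 2 0).1 (attrEmbeds_embeds h)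
  tfae_finish

end Pool.Agent.Helper97.SZ
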