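import Pool.Agent.Helper97.SZ.SL2
import Pool.Agent.Helper87.SY.Flow1

/-!
# Project SZ: the displacement criterion
-/

set_option autoImplicit false

open Set Filter Topology Metric
open scoped ContDiff

namespace Pool.Agent.Helper97.SZ

open Pool.Agent.Helper91.SY

/-- a function of compact support whose `η`-Hamiltonian flow at time one maps the closed cube of half side
`R` off itself -/
def HamDisp {n : ℕ} (η : Form n) (R : ℝ) : Prop := ∃ (f : V n → ℝ) (Φ : ℝ → V n → V n),
  ContDiff ℝ ∞ f ∧ HasCompactSupport f ∧ (∀ x, Φ 0 x = x) ∧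
  (∀ t x, DifferentiableAt ℝ (fun s => Φ s x) t) ∧
  (∀ t x, HamAt η f (Φ t x) (deriv (fun s => Φ s x) t)) ∧ ∀ x, ‖x‖ ≤ R → R < ‖Φ 1 x‖

/-- an `η`-symplectic diffeomorphism maps the closed cube of half side `R` off itself -/
def SympDisp {n : ℕ} (η : Form n) (R : ℝ) : Prop := ∃ g : V n ≃ V n, Sm g ∧ Pres η g ∧
  ∀ x, ‖x‖ ≤ R → R < ‖g x‖

/-- an `η`-symplectic embedding of a neighbourhood of the closed cube of half side `R` maps the cube off
itself -/
def LocDisp {n : ℕ} (η : Form n) (R : ℝ) : Prop := ∃ (U : Set (V n)) (ψ : V n → V n), IsOpen U ∧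
  closedBall 0 R ⊆ U ∧ ContDiffOn ℝ ∞ ψ U ∧ InjOn ψ U ∧
  (∀ x ∈ U, ∀ u v, η (ψ x) ![fderiv ℝ ψ x u, fderiv ℝ ψ x v] = η x ![u, v]) ∧
  ∀ x, ‖x‖ ≤ R → R < ‖ψ x‖

theorem locDisp_embeds {n : ℕ} {η : Form n} {R : ℝ} (ho : Outside η R) (h : LocDisp η R) :
    EmbedsNear η R := by
  obtain ⟨U, ψ, hU, hUR, hψ, hi, hp, hd⟩ := h
  refine ⟨U ∩ ψ ⁻¹' {y | R < ‖y‖}, ψ, ?_, ?_, hψ.mono inter_subset_left,
    hi.mono inter_subset_left, ?_⟩
  · exact hψ.continuousOn.isOpen_inter_preimage hU (isOpen_lt continuous_const continuous_norm)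
  · intro x hx
    refine ⟨hUR hx, hd x ?_⟩
    rwa [mem_closedBall_zero_iff] at hx
  · intro x hx u v
    rw [← ho (ψ x) hx.2, hp x hx.1]

theorem sympDisp_locDisp {n : ℕ} {η : Form n} {R : ℝ} (h : SympDisp η R) : LocDisp η R := by
  obtain ⟨g, hg, hp, hd⟩ := h
  exact ⟨univ, fun x => g x, isOpen_univ, subset_univ _, hg.1.contDiffOn, g.injective.injOn,
    fun x _ => hp x, hd⟩

/-- a Hamiltonian displacement is a symplectic one -/
theorem hamDisp_sympDisp (hTO : StmtTO) (hCW : StmtCW) {n : ℕ} {η : Form n} {R : ℝ}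
    (hη : StdAtInf η) (h : HamDisp η R) : SympDisp η R := by
  obtain ⟨f, Φ, hf, hfc, hΦ0, hΦd, hΦH, hd⟩ := h
  obtain ⟨B, B0, R₁, hR₁, hB, hfar, hBη, hB0⟩ := hCW n η hη
  obtain ⟨ρ, hρ⟩ := hfc.isCompact.isBounded.subset_closedBall (0 : V n)
  obtain ⟨X, Φ', g, hX, hXH, hXe, hflow, hpull, hg1, hg2, hgS, hgp, hgT⟩ :=
    hTO (V n) B B0 (max R₁ (ρ + 1)) f 0 0 (hR₁.trans (le_max_left _ _)) hB
      (fun x hx => hfar x ((le_max_left _ _).trans hx)) hf
      (by
        intro x hx
        have h1 : ρ + 1 ≤ ‖x‖ := (le_max_right _ _).trans hx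
        have h2 : x ∉ tsupport f := by
          intro h3
          have := hρ h3
          rw [mem_closedBall_zero_iff] at this
          linarith
        rw [image_eq_zero_of_notMem_tsupport h2]
        rfl)
      (by intro v; simp)
  have hder : ∀ t x, HasDerivAt (fun s => Φ s x) (X (Φ t x)) t := by
    intro t x
    have h1 : deriv (fun s => Φ s x) t - X (Φ t x) = 0 := by
      apply hB.nondeg (Φ t x)
      intro v
      have h2 := hΦH t x v
      have h3 := hXH (Φ t x) v
      rw [map_sub]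
      show B (Φ t x) (deriv (fun s => Φ s x) t) v - B (Φ t x) (X (Φ t x)) v = 0
      rw [h3, hBη, h2, sub_self]
    rw [← sub_eq_zero.1 h1]
    exact (hΦd t x).hasDerivAt
  have hΦ1 : ∀ x, Φ 1 x = g x := by
    intro x
    rw [hg1]
    have h1 := Pool.Agent.Helper87.SY.sol_unique (W := X) (hX.of_le (by exact_mod_cast le_top))
      (γ := fun s => Φ' s x) (δ := fun s => Φ s x)
      (fun t _ => (hflow.deriv t x).hasDerivWithinAt) (fun t _ => (hder t x).hasDerivWithinAt)
      (by simp only [hΦ0, hflow.zero])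
    exact h1 1 (right_mem_Icc.mpr zero_le_one)
  refine ⟨g, hgS, ?_, ?_⟩
  · intro x u v
    rw [← hBη, ← hBη]
    exact hgp x u v
  · intro x hx
    rw [← hΦ1]
    exact hd x hx

/-- a standard form has Hamiltonian displacements -/
theorem standard_hamDisp (hTO : StmtTO) (hCW : StmtCW) {n : ℕ} (hn : 2 ≤ n) {η : Form n}
    (hη : StdAtInf η) (h : Standard η) (R : ℝ) : HamDisp η R := by
  obtain ⟨φ, hφ, hφp⟩ := h
  obtain ⟨B, B0, R₁, hR₁, hB, hfar, hBη, hB0⟩ := hCW n η hη
  have : Nonempty (Fin n) := ⟨⟨0, by omega⟩⟩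
  obtain ⟨q, hq⟩ : ∃ x : V n, ‖x‖ = R₁ := exists_norm_eq (V n) hR₁
  have hBq : B q = B0 := hfar q hq.ge
  have hB0s : Symp (fun _ : V n => B0) := by
    refine ⟨contDiff_const, ?_, ?_, ?_⟩
    · intro x u
      have := hB.alt q u
      rwa [hBq] at this
    · intro x u v w
      simp
    · intro x u hu
      apply hB.nondeg q u
      intro v
      rw [hBq]
      exact hu v
  obtain ⟨r, hr, hCr⟩ : ∃ r : ℝ, 0 < r ∧ ∀ x : V n, ‖x‖ ≤ R → ‖φ x‖ ≤ r := by
    have hC : IsCompact ((fun x => φ x) '' closedBall (0 : V n) R) :=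
      (isCompact_closedBall _ _).image hφ.1.continuous
    obtain ⟨r, hr⟩ := hC.isBounded.subset_closedBall (0 : V n)
    refine ⟨max r 1, lt_of_lt_of_le one_pos (le_max_right _ _), fun x hx => ?_⟩
    have h1 := hr (mem_image_of_mem (fun x => φ x) (by rwa [mem_closedBall_zero_iff]))
    rw [mem_closedBall_zero_iff] at h1
    exact h1.trans (le_max_left _ _)
  obtain ⟨e, he⟩ : ∃ x : V n, ‖x‖ = 2 * r + 1 := exists_norm_eq (V n) (by linarith)
  let χ : ContDiffBump (0 : V n) := ⟨3 * r + 2, 3 * r + 3, by linarith, by linarith⟩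
  set H : V n → ℝ := fun y => χ y * B0 e y with hH
  have hHs : ContDiff ℝ ∞ H := χ.contDiff.mul (B0 e).contDiff
  have hH0 : ∀ y, 3 * r + 3 ≤ ‖y‖ → H y = 0 := by
    intro y hy
    have h1 : χ y = 0 := χ.zero_of_le_dist (by rw [dist_zero_right]; exact hy)
    rw [hH]
    simp only [h1, zero_mul]
  obtain ⟨X, Ψ, g, hX, hXH, hXe, hflow, -, -, -, -, -, -⟩ :=
    hTO (V n) (fun _ => B0) B0 (3 * r + 3) H 0 0 (by linarith) hB0s (fun _ _ => rfl) hHs
      (fun x hx => by rw [hH0 x hx]; rfl) (by intro v; simp)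
  have hXin : ∀ y, ‖y‖ < 3 * r + 2 → X y = e := by
    intro y hy
    have hev : H =ᶠ[𝓝 y] fun z => B0 e z := by
      have h1 : ∀ᶠ z in 𝓝 y, ‖z‖ < 3 * r + 2 :=
        continuous_norm.continuousAt.eventually (gt_mem_nhds hy)
      filter_upwards [h1] with z hz
      have h2 : χ z = 1 := by
        apply χ.one_of_mem_closedBall
        rw [mem_closedBall_zero_iff]
        exact hz.le
      rw [hH]
      simp only [h2, one_mul]
    have hfd : fderiv ℝ H y = B0 e := by
      rw [hev.fderiv_eq]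
      exact (B0 e).fderiv
    have h0 : X y - e = 0 := by
      refine hB0s.nondeg y (X y - e) ?_
      intro v
      have h1 := hXH y v
      rw [hfd] at h1
      rw [map_sub]
      show B0 (X y) v - B0 e v = 0
      rw [h1, sub_self]
    exact sub_eq_zero.1 h0
  have hmove : ∀ y, ‖y‖ ≤ r → Ψ 1 y = y + e := by
    intro y hy
    have h1 := Pool.Agent.Helper87.SY.sol_unique (W := X) (hX.of_le (by exact_mod_cast le_top))
      (γ := fun t : ℝ => y + t • e) (δ := fun s => Ψ s y)
      (fun t ht => by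
        have hn' : ‖y + t • e‖ < 3 * r + 2 := by
          have h2 : ‖y + t • e‖ ≤ ‖y‖ + ‖t • e‖ := norm_add_le _ _
          have h3 : ‖t • e‖ ≤ ‖e‖ := by
            rw [norm_smul, Real.norm_eq_abs, abs_of_nonneg ht.1]
            have := mul_le_mul_of_nonneg_right ht.2 (norm_nonneg e)
            linarith
          linarith
        show HasDerivWithinAt (fun t : ℝ => y + t • e) (X (y + t • e)) (Icc 0 1) t
        rw [hXin _ hn']
        have h3 : HasDerivAt (fun t : ℝ => y + t • e) ((1 : ℝ) • e) t :=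
          ((hasDerivAt_id t).smul_const e).const_add y
        rw [one_smul] at h3
        exact h3.hasDerivWithinAt)
      (fun t _ => (hflow.deriv t y).hasDerivWithinAt)
      (by simp only [hflow.zero, zero_smul, add_zero])
    have h4 := h1 1 (right_mem_Icc.mpr zero_le_one)
    simpa using h4
  have hφd : ∀ x, DifferentiableAt ℝ (fun y => φ y) x := fun x =>
    (hφ.1.differentiable (by simp)).differentiableAt
  have hφsd : ∀ x, DifferentiableAt ℝ (fun y => φ.symm y) x := fun x =>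
    (hφ.2.differentiable (by simp)).differentiableAt
  have hder : ∀ t x, HasDerivAt (fun s => φ.symm (Ψ s (φ x)))
      (fderiv ℝ (fun y => φ.symm y) (Ψ t (φ x)) (X (Ψ t (φ x)))) t := by
    intro t x
    exact (hφsd (Ψ t (φ x))).hasFDerivAt.comp_hasDerivAt t (hflow.deriv t (φ x))
  refine ⟨fun x => H (φ x), fun t x => φ.symm (Ψ t (φ x)), hHs.comp hφ.1, ?_, ?_, ?_, ?_, ?_⟩
  · refine HasCompactSupport.intro
      ((isCompact_closedBall (0 : V n) (3 * r + 3)).image hφ.2.continuous) ?_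
    intro x hx
    apply hH0
    by_contra hcon
    apply hx
    refine ⟨φ x, ?_, φ.symm_apply_apply x⟩
    rw [mem_closedBall_zero_iff]
    exact (not_le.1 hcon).le
  · intro x
    simp only [hflow.zero, Equiv.symm_apply_apply]
  · intro t x
    exact (hder t x).differentiableAt
  · intro t x v
    rw [(hder t x).deriv, ← hφp]
    have h1 : ∀ w, fderiv ℝ (fun y => φ y) (φ.symm (Ψ t (φ x)))
        (fderiv ℝ (fun y => φ.symm y) (Ψ t (φ x)) w) = w := by
      intro w
      exact fderiv_inv (f := fun y => φ.symm y) (g := fun y => φ y) (hφsd _) (hφd _)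
        (Eventually.of_forall fun z => φ.apply_symm_apply z) w
    rw [h1, ← hB0]
    have h2 := hXH (Ψ t (φ x)) (fderiv ℝ (fun y => φ y) (φ.symm (Ψ t (φ x))) v)
    have h3 : fderiv ℝ (fun x => H (φ x)) (φ.symm (Ψ t (φ x))) =
        (fderiv ℝ H (Ψ t (φ x))).comp (fderiv ℝ (fun y => φ y) (φ.symm (Ψ t (φ x)))) := by
      have h4 : HasFDerivAt H (fderiv ℝ H (Ψ t (φ x))) (φ (φ.symm (Ψ t (φ x)))) := by
        rw [Equiv.apply_symm_apply]
        exact (hHs.differentiable (by simp)).differentiableAt.hasFDerivAt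
      exact (h4.comp _ (hφd _).hasFDerivAt).fderiv
    rw [h3]
    exact h2
  · intro x hx
    by_contra hcon
    rw [not_lt] at hcon
    have h1 := hCr _ hcon
    rw [Equiv.apply_symm_apply, hmove _ (hCr x hx)] at h1
    have h2 : ‖e‖ ≤ ‖φ x + e‖ + ‖φ x‖ := by
      have := norm_sub_le (φ x + e) (φ x)
      rwa [add_sub_cancel_left] at this
    have h3 := hCr x hx
    linarith

/-- the displacement criterion -/
def StmtDISP : Prop := ∀ n : ℕ, 2 ≤ n → ∀ (η : Form n) (R : ℝ), 0 < R → StdAtInf η → Outside η R →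
  [Standard η, HamDisp η R, SympDisp η R, LocDisp η R].TFAE

theorem disp (hTO : StmtTO) (hCW : StmtCW) (hFIN : StmtFIN) : StmtDISP := by
  intro n hn η R hR hη ho
  tfae_have 1 → 2 := fun h => standard_hamDisp hTO hCW hn hη h R
  tfae_have 2 → 3 := fun h => hamDisp_sympDisp hTO hCW hη h
  tfae_have 3 → 4 := sympDisp_locDisp
  tfae_have 4 → 1 := fun h => ((hFIN n hn η R hR hη ho).out 2 0).1 (locDisp_embeds ho h)
  tfae_finish

end Pool.Agent.Helper97.SZ
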