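import Pool.Agent.Helper87.SY.Flow2
import Pool.Agent.Helper91.SY.Goals

/-!
# Project SY, packet GE (from Helper87's flow theorem)
-/

set_option autoImplicit false

open Set Filter Topology Metric
open scoped ContDiff

namespace Pool.Agent.Helper97.SZ

open Pool.Agent.Helper91.SY

theorem ge : StmtGE := by
  intro E _ _ _ X R e hX he
  obtain ⟨C, hC⟩ : ∃ C : ℝ, ∀ x, ‖X x‖ ≤ C := by
    obtain ⟨C, hC⟩ := (isCompact_closedBall (0 : E) R).exists_bound_of_continuousOn
      hX.continuous.continuousOn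
    refine ⟨max C ‖e‖, fun x => ?_⟩
    rcases le_or_gt ‖x‖ R with h | h
    · exact (hC x (by rwa [mem_closedBall_zero_iff])).trans (le_max_left _ _)
    · rw [he x h.le]
      exact le_max_right _ _
  obtain ⟨Φ, hΦ, -⟩ := Pool.Agent.Helper87.SY.exists_flow hX hC
  exact ⟨Φ, hΦ.1, fun t x => hΦ.2 x t⟩

end Pool.Agent.Helper97.SZ
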