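import Pool.Agent.Helper97.SZ.DISP
import Pool.Agent.Helper53.SY.GI

/-!
# Project SZ: an immersion of a ball which is injective on the boundary sphere is an embedding
-/

set_option autoImplicit false

open Set Filter Topology Metric
open scoped ContDiff

namespace Pool.Agent.Helper97.SZ

open Pool.Agent.Helper91.SY

section
variable {E : Type} [NormedAddCommGroup E] [NormedSpace ℝ E]

theorem exists_larger [Nontrivial E] (y : E) {N : Set E} (hN : N ∈ 𝓝 y) : ∃ y' ∈ N, ‖y‖ < ‖y'‖ := by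
  obtain ⟨v, hv, hvy⟩ : ∃ v : E, v ≠ 0 ∧ ∀ t : ℝ, 0 < t → ‖y‖ < ‖y + t • v‖ := by
    rcases eq_or_ne y 0 with h | h
    · obtain ⟨v, hv⟩ := exists_ne (0 : E)
      refine ⟨v, hv, fun t ht => ?_⟩
      rw [h, norm_zero, zero_add]
      exact norm_pos_iff.2 (smul_ne_zero ht.ne' hv)
    · refine ⟨y, h, fun t ht => ?_⟩
      have h1 : y + t • y = (1 + t) • y := by rw [add_smul, one_smul]
      rw [h1, norm_smul, Real.norm_of_nonneg (by linarith)]
      have := norm_pos_iff.2 h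
      nlinarith
  have hc : ContinuousAt (fun t : ℝ => y + t • v) 0 := by fun_prop
  have h1 : ∀ᶠ t : ℝ in 𝓝 0, y + t • v ∈ N := by
    apply hc
    simpa using hN
  have h2 : ∀ᶠ t : ℝ in 𝓝[>] 0, y + t • v ∈ N ∧ 0 < t :=
    (h1.filter_mono nhdsWithin_le_nhds).and self_mem_nhdsWithin
  obtain ⟨t, ht, ht0⟩ := h2.exists
  exact ⟨_, ht, hvy t ht0⟩

variable [FiniteDimensional ℝ E] {F : E → E} {U : Set E}

theorem map_nhds_of_immersion (hU : IsOpen U) (hF : ContDiffOn ℝ ∞ F U)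
    (hinj : ∀ x ∈ U, Function.Injective (fderiv ℝ F x)) {x : E} (hx : x ∈ U) :
    map F (𝓝 x) = 𝓝 (F x) ∧ ∃ N ∈ 𝓝 x, InjOn F N := by
  obtain ⟨e, he⟩ := Pool.Agent.Helper53.SY.exists_equiv (fderiv ℝ F x) (hinj x hx)
  have h1 : HasStrictFDerivAt F (fderiv ℝ F x) x :=
    (hF.contDiffAt (hU.mem_nhds hx)).hasStrictFDerivAt (by simp)
  rw [← he] at h1
  refine ⟨h1.map_nhds_eq_of_equiv, (h1.toOpenPartialHomeomorph F).source,
    (h1.toOpenPartialHomeomorph F).open_source.mem_nhds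
      h1.mem_toOpenPartialHomeomorph_source, ?_⟩
  have h2 := (h1.toOpenPartialHomeomorph F).injOn
  rwa [h1.toOpenPartialHomeomorph_coe] at h2

/-- An immersion of a neighbourhood of a closed ball, injective on the boundary sphere, is injective on the
closed ball. -/
theorem inj_ball (hE : 1 < Module.rank ℝ E) {R : ℝ} (hR : 0 < R) (hU : IsOpen U)
    (hRU : closedBall 0 R ⊆ U) (hF : ContDiffOn ℝ ∞ F U)
    (hinj : ∀ x ∈ U, Function.Injective (fderiv ℝ F x)) (hS : InjOn F (sphere 0 R)) :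
    InjOn F (closedBall 0 R) := by
  have hnt : Nontrivial E := (rank_pos_iff_nontrivial (R := ℝ)).1 (zero_lt_one.trans hE)
  have hK : IsCompact (closedBall (0 : E) R) := isCompact_closedBall 0 R
  have hc : ContinuousOn F (closedBall 0 R) := hF.continuousOn.mono hRU
  have hmap : ∀ x ∈ closedBall (0 : E) R, map F (𝓝 x) = 𝓝 (F x) := fun x hx =>
    (map_nhds_of_immersion hU hF hinj (hRU hx)).1
  have hBK : ball (0 : E) R ⊆ closedBall 0 R := ball_subset_closedBall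
  have hSB : ∀ x ∈ closedBall (0 : E) R, x ∉ ball (0 : E) R → x ∈ sphere (0 : E) R := by
    intro x hx hx'
    rw [mem_closedBall] at hx
    rw [mem_ball, not_lt] at hx'
    rw [mem_sphere]
    exact le_antisymm hx hx'
  -- the double points
  set G : Set (E × E) := {p | p.1 ∈ closedBall (0 : E) R ∧ p.2 ∈ closedBall (0 : E) R ∧
    F p.1 = F p.2 ∧ p.1 ≠ p.2} with hG
  have hGc : IsCompact G := by
    have h1 : ∀ x ∈ closedBall (0 : E) R, ∃ N : Set E, IsOpen N ∧ x ∈ N ∧ InjOn F N := by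
      intro x hx
      obtain ⟨N, hN, hi⟩ := (map_nhds_of_immersion hU hF hinj (hRU hx)).2
      obtain ⟨N', hN', ho, hxN⟩ := _root_.mem_nhds_iff.1 hN
      exact ⟨N', ho, hxN, hi.mono hN'⟩
    choose! N hNo hNx hNi using h1
    set W : Set (E × E) := ⋃ x ∈ closedBall (0 : E) R, N x ×ˢ N x with hW
    have hWo : IsOpen W := isOpen_biUnion fun x hx => (hNo x hx).prod (hNo x hx)
    have hprod : IsCompact (closedBall (0 : E) R ×ˢ closedBall (0 : E) R) := hK.prod hK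
    have hcc : ContinuousOn (fun p : E × E => F p.1 - F p.2)
        (closedBall (0 : E) R ×ˢ closedBall (0 : E) R) :=
      (hc.comp continuousOn_fst fun p hp => hp.1).sub (hc.comp continuousOn_snd fun p hp => hp.2)
    have h2 : IsClosed ((closedBall (0 : E) R ×ˢ closedBall (0 : E) R) ∩
        (fun p : E × E => F p.1 - F p.2) ⁻¹' {0}) :=
      hcc.preimage_isClosed_of_isClosed hprod.isClosed isClosed_singleton
    have h3 : G = ((closedBall (0 : E) R ×ˢ closedBall (0 : E) R) ∩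
        (fun p : E × E => F p.1 - F p.2) ⁻¹' {0}) ∩ Wᶜ := by
      ext p
      constructor
      · rintro ⟨hp1, hp2, hp3, hp4⟩
        refine ⟨⟨⟨hp1, hp2⟩, ?_⟩, ?_⟩
        · show F p.1 - F p.2 = 0
          rw [hp3, sub_self]
        · intro hpW
          rw [hW] at hpW
          simp only [mem_iUnion] at hpW
          obtain ⟨x, hx, hpx⟩ := hpW
          exact hp4 (hNi x hx hpx.1 hpx.2 hp3)
      · rintro ⟨⟨⟨hp1, hp2⟩, hp3⟩, hp4⟩
        refine ⟨hp1, hp2, sub_eq_zero.1 hp3, ?_⟩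
        intro hp5
        apply hp4
        rw [hW]
        simp only [mem_iUnion]
        refine ⟨p.1, hp1, hNx _ hp1, ?_⟩
        rw [← hp5]
        exact hNx _ hp1
    rw [h3]
    exact IsCompact.of_isClosed_subset hprod (h2.inter hWo.isClosed_compl)
      (fun p hp => hp.1.1)
  -- interior points are not maxima of the norm
  have hmax : ∀ x ∈ ball (0 : E) R, ∃ x' ∈ closedBall (0 : E) R, ‖F x‖ < ‖F x'‖ := by
    intro x hx
    have h1 : F '' ball (0 : E) R ∈ 𝓝 (F x) := by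
      rw [← hmap x (hBK hx)]
      exact image_mem_map (isOpen_ball.mem_nhds hx)
    obtain ⟨_, ⟨x', hx', rfl⟩, h2⟩ := exists_larger (F x) h1
    exact ⟨x', hBK hx', h2⟩
  obtain ⟨z₀, hz₀, hz₀m⟩ := hK.exists_isMaxOn ⟨0, by simpa using hR.le⟩ hc.norm
  have hz₀B : z₀ ∉ ball (0 : E) R := by
    intro h
    obtain ⟨x', hx', h1⟩ := hmax z₀ h
    exact absurd (hz₀m hx') (not_le.2 h1)
  have hz₀S : z₀ ∈ sphere (0 : E) R := hSB z₀ hz₀ hz₀B
  -- the boundary points whose image is the image of an interior point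
  set S₁ : Set E := Prod.fst '' (G ∩ (sphere (0 : E) R ×ˢ univ)) with hS₁
  have hS₁c : IsClosed S₁ := by
    have h1 : IsCompact (G ∩ (sphere (0 : E) R ×ˢ univ)) :=
      hGc.inter_right (isClosed_sphere.prod isClosed_univ)
    exact (h1.image continuous_fst).isClosed
  have hS₁i : ∀ z ∈ S₁, z ∈ sphere (0 : E) R ∧ ∃ x' ∈ ball (0 : E) R, F z = F x' := by
    rintro _ ⟨⟨z, x'⟩, ⟨⟨h1, h2, h3, h4⟩, h5, -⟩, rfl⟩
    refine ⟨h5, x', ?_, h3⟩
    by_contra hx'
    exact h4 (hS h5 (hSB x' h2 hx') h3)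
  have hS₁' : ∀ z ∈ sphere (0 : E) R, ∀ x' ∈ ball (0 : E) R, F z = F x' → z ∈ S₁ := by
    intro z hz x' hx' h
    refine ⟨(z, x'), ⟨⟨sphere_subset_closedBall hz, hBK hx', h, ?_⟩, hz, mem_univ _⟩, rfl⟩
    intro h1
    have h2 : z = x' := h1
    rw [mem_sphere] at hz
    rw [mem_ball, ← h2, hz] at hx'
    exact lt_irrefl _ hx'
  have hz₀1 : z₀ ∉ S₁ := by
    intro h
    obtain ⟨-, x', hx', h1⟩ := hS₁i z₀ h
    obtain ⟨x'', hx'', h2⟩ := hmax x' hx'
    rw [← h1] at h2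
    exact absurd (hz₀m hx'') (not_le.2 h2)
  have hopen : IsOpen (F '' ball (0 : E) R) := by
    rw [isOpen_iff_mem_nhds]
    rintro _ ⟨x, hx, rfl⟩
    rw [← hmap x (hBK hx)]
    exact image_mem_map (isOpen_ball.mem_nhds hx)
  have hS₁e : ∀ z, z ∉ S₁ := by
    intro z hz
    obtain ⟨hzS, x', hx', hzx⟩ := hS₁i z hz
    have hu : IsOpen (U ∩ F ⁻¹' (F '' ball (0 : E) R)) :=
      hF.continuousOn.isOpen_inter_preimage hU hopen
    have hpre := isPreconnected_sphere hE (0 : E) R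
    obtain ⟨w, hw, hwu, hwv⟩ := hpre _ _ hu hS₁c.isOpen_compl (by
        intro w hw
        by_cases h : w ∈ S₁
        · left
          obtain ⟨-, x'', hx'', h3⟩ := hS₁i w h
          exact ⟨hRU (sphere_subset_closedBall hw), x'', hx'', h3.symm⟩
        · right
          exact h)
      ⟨z, hzS, hRU (sphere_subset_closedBall hzS), x', hx', hzx.symm⟩ ⟨z₀, hz₀S, hz₀1⟩
    obtain ⟨-, x'', hx'', h3⟩ := hwu
    exact hwv (hS₁' w hw x'' hx'' h3.symm)
  -- conclusion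
  intro x₁ hx₁ x₂ hx₂ hxx
  by_contra hne
  obtain ⟨p, hp, hpm⟩ := hGc.exists_isMaxOn ⟨(x₁, x₂), hx₁, hx₂, hxx, hne⟩
    (f := fun p : E × E => ‖F p.1‖) ((hc.comp continuousOn_fst fun p hp => hp.1).norm)
  obtain ⟨hp1, hp2, hp3, hp4⟩ := hp
  by_cases hb1 : p.1 ∈ ball (0 : E) R
  · by_cases hb2 : p.2 ∈ ball (0 : E) R
    · obtain ⟨N₁, N₂, hN₁, hN₂, hm1, hm2, hdis⟩ := t2_separation hp4
      have h1 : F '' (N₁ ∩ ball (0 : E) R) ∈ 𝓝 (F p.1) := by
        rw [← hmap _ hp1]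
        exact image_mem_map (inter_mem (hN₁.mem_nhds hm1) (isOpen_ball.mem_nhds hb1))
      have h2 : F '' (N₂ ∩ ball (0 : E) R) ∈ 𝓝 (F p.1) := by
        rw [hp3, ← hmap _ hp2]
        exact image_mem_map (inter_mem (hN₂.mem_nhds hm2) (isOpen_ball.mem_nhds hb2))
      obtain ⟨y, ⟨⟨a, ha, hay⟩, ⟨b, hb, hby⟩⟩, hy⟩ := exists_larger (F p.1) (inter_mem h1 h2)
      have h3 : (a, b) ∈ G := by
        refine ⟨hBK ha.2, hBK hb.2, by rw [hay, hby], ?_⟩
        intro hab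
        have hab' : a = b := hab
        exact Set.disjoint_left.1 hdis ha.1 (hab' ▸ hb.1)
      have h4 := hpm h3
      change ‖F a‖ ≤ ‖F p.1‖ at h4
      rw [hay] at h4
      exact absurd h4 (not_le.2 hy)
    · exact hS₁e p.2 (hS₁' p.2 (hSB _ hp2 hb2) p.1 hb1 hp3.symm)
  · by_cases hb2 : p.2 ∈ ball (0 : E) R
    · exact hS₁e p.1 (hS₁' p.1 (hSB _ hp1 hb1) p.2 hb2 hp3)
    · exact hp4 (hS (hSB _ hp1 hb1) (hSB _ hp2 hb2) hp3)

/-- ... and injective on a neighbourhood of it. -/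
theorem inj_near (hE : 1 < Module.rank ℝ E) {R : ℝ} (hR : 0 < R) (hU : IsOpen U)
    (hRU : closedBall 0 R ⊆ U) (hF : ContDiffOn ℝ ∞ F U)
    (hinj : ∀ x ∈ U, Function.Injective (fderiv ℝ F x)) (hS : InjOn F (sphere 0 R)) :
    ∃ U' : Set E, IsOpen U' ∧ closedBall 0 R ⊆ U' ∧ U' ⊆ U ∧ InjOn F U' := by
  obtain ⟨t, ht, hi⟩ := (inj_ball hE hR hU hRU hF hinj hS).exists_mem_nhdsSet
    (isCompact_closedBall 0 R)
    (fun x hx => (hF.contDiffAt (hU.mem_nhds (hRU hx))).continuousAt)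
    (fun x hx => (map_nhds_of_immersion hU hF hinj (hRU hx)).2)
  refine ⟨U ∩ interior t, hU.inter isOpen_interior, ?_, inter_subset_left,
    hi.mono (inter_subset_right.trans interior_subset)⟩
  exact subset_inter hRU (subset_interior_iff_mem_nhdsSet.2 ht)

end

theorem rank_V {n : ℕ} (hn : 1 ≤ n) : 1 < Module.rank ℝ (V n) := by
  rw [← Module.finrank_eq_rank]
  have : Module.finrank ℝ (V n) = n + n := by
    rw [Module.finrank_prod, Module.finrank_fin_fun]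
  rw [this]
  exact_mod_cast (by omega : 1 < n + n)

/-- a map of a neighbourhood of the closed cube of half side `R`, injective on the boundary of the cube, pulls
back the standard form to `η` -/
def SphereEmbeds {n : ℕ} (η : Form n) (R : ℝ) : Prop := ∃ (U : Set (V n)) (ψ : V n → V n), IsOpen U ∧
  closedBall 0 R ⊆ U ∧ ContDiffOn ℝ ∞ ψ U ∧ InjOn ψ (sphere 0 R) ∧
  ∀ x ∈ U, ∀ u v, w0 (fderiv ℝ ψ x u) (fderiv ℝ ψ x v) = η x ![u, v]

/-- the same for displacement -/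
def SphereDisp {n : ℕ} (η : Form n) (R : ℝ) : Prop := ∃ (U : Set (V n)) (ψ : V n → V n), IsOpen U ∧
  closedBall 0 R ⊆ U ∧ ContDiffOn ℝ ∞ ψ U ∧ InjOn ψ (sphere 0 R) ∧
  (∀ x ∈ U, ∀ u v, η (ψ x) ![fderiv ℝ ψ x u, fderiv ℝ ψ x v] = η x ![u, v]) ∧
  ∀ x, ‖x‖ ≤ R → R < ‖ψ x‖

theorem sphereEmbeds_iff {n : ℕ} (hn : 1 ≤ n) {η : Form n} (hη : StdAtInf η) {R : ℝ} (hR : 0 < R) :
    SphereEmbeds η R ↔ EmbedsNear η R := by
  constructor
  · rintro ⟨U, ψ, hU, hRU, hψ, hS, hp⟩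
    obtain ⟨U', hU', hRU', hUU', hi⟩ := inj_near (rank_V hn) hR hU hRU hψ (by
      intro x hx
      rw [injective_iff_map_eq_zero]
      intro u hu
      by_contra hu0
      obtain ⟨w, hw⟩ := hη.nondeg x u hu0
      apply hw
      rw [← hp x hx, hu]
      simp [w0]) hS
    exact ⟨U', ψ, hU', hRU', hψ.mono hUU', hi, fun x hx => hp x (hUU' hx)⟩
  · rintro ⟨U, ψ, hU, hRU, hψ, hi, hp⟩
    exact ⟨U, ψ, hU, hRU, hψ, hi.mono (sphere_subset_closedBall.trans hRU), hp⟩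

theorem sphereDisp_iff {n : ℕ} (hn : 1 ≤ n) {η : Form n} (hη : StdAtInf η) {R : ℝ} (hR : 0 < R) :
    SphereDisp η R ↔ LocDisp η R := by
  constructor
  · rintro ⟨U, ψ, hU, hRU, hψ, hS, hp, hd⟩
    obtain ⟨U', hU', hRU', hUU', hi⟩ := inj_near (rank_V hn) hR hU hRU hψ (by
      intro x hx
      rw [injective_iff_map_eq_zero]
      intro u hu
      by_contra hu0
      obtain ⟨w, hw⟩ := hη.nondeg x u hu0
      apply hw
      rw [← hp x hx, hu]
      exact (η (ψ x)).map_coord_zero 0 rfl) hS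
    exact ⟨U', ψ, hU', hRU', hψ.mono hUU', hi, fun x hx => hp x (hUU' hx), hd⟩
  · rintro ⟨U, ψ, hU, hRU, hψ, hi, hp, hd⟩
    exact ⟨U, ψ, hU, hRU, hψ, hi.mono (sphere_subset_closedBall.trans hRU), hp, hd⟩

end Pool.Agent.Helper97.SZ
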