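import Pool.Agent.Helper97.SZ.Fin2
import Pool.Agent.Helper97.SZ.DISP
import Pool.Agent.Helper97.SZ.GE
import Pool.Agent.Helper97.SZ.INJ
import Pool.Agent.Helper97.SZ.ATT
import Pool.Agent.Helper7.SZ.PER
import Pool.Agent.Helper8.SZ.LI
import Pool.Agent.Helper12.SZ.CORE
import Pool.Agent.Helper15.SZ.IS
import Pool.Agent.Helper16.SZ.NRM
import Pool.Agent.Helper28.SZ.PAL
import Pool.Agent.Helper34.SZ.AV
import Pool.Agent.Helper48.SZ.SW
import Pool.Agent.Helper50.SZ.STR
import Pool.Agent.Helper55.SZ.MOVE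
import Pool.Agent.Helper59.SZ.SCALE
import Pool.Agent.Helper69.SZ.PAIR
import Pool.Agent.Helper74.SZ.CONJ
import Pool.Agent.Helper77.SZ.POIN
import Pool.Agent.Helper82.SZ.SL1
import Pool.Agent.Helper88.SZ.BLOW
import Pool.Agent.Helper95.SZ.MOSER
import Pool.Agent.Helper98.SZ.PB
import Pool.Agent.Helper53.SY.GI
import Pool.Agent.Helper83.SY.IV
import Pool.Agent.Helper77.SY.SM
import Pool.Agent.Helper13.SY.NM
import Pool.Agent.Helper33.SY.CW
import Pool.Agent.Helper18.SY.CV
import Pool.Agent.Helper79.SY.TO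
import Pool.Agent.Helper69.SY.HV
import Pool.Agent.Helper32.SY.FP

/-!
# Project SZ: assembly
-/

set_option autoImplicit false

namespace Pool.Agent.Helper97.SZ

open Pool.Agent.Helper91.SY

theorem gi' : StmtGI := Pool.Agent.Helper53.SY.gi_
theorem iv' : StmtIV := Pool.Agent.Helper83.SY.iv_
theorem sm' : StmtSM := Pool.Agent.Helper77.SY.sm_ Pool.Agent.Helper13.SY.nm_
theorem cw' : StmtCW := Pool.Agent.Helper33.SY.cw Pool.Agent.Helper18.SY.cv_
theorem to' : StmtTO := Pool.Agent.Helper79.SY.to_ ge sm' Pool.Agent.Helper69.SY.hv_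
  Pool.Agent.Helper32.SY.fp_
theorem is' : StmtIS := Pool.Agent.Helper15.SZ.is
theorem pb' : StmtPB := Pool.Agent.Helper98.SZ.pb
theorem moser' : StmtMOSER := Pool.Agent.Helper95.SZ.moser ge sm' gi' iv'
theorem poin' : StmtPOIN := Pool.Agent.Helper77.SZ.poin Pool.Agent.Helper8.SZ.li
theorem move' : StmtMOVE := Pool.Agent.Helper55.SZ.move moser' poin'
theorem blow' : StmtBLOW := Pool.Agent.Helper88.SZ.blow gi' iv'
theorem scale' : StmtSCALE := Pool.Agent.Helper59.SZ.scale gi' iv'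
theorem pal' : StmtPAL := Pool.Agent.Helper28.SZ.pal blow' scale' Pool.Agent.Helper74.SZ.conj
theorem str' : StmtSTR := Pool.Agent.Helper50.SZ.str moser' poin' blow' pb'
theorem nrm' : StmtNRM := Pool.Agent.Helper16.SZ.nrm move' is'
theorem sl1' : StmtSL1 := Pool.Agent.Helper82.SZ.sl1 pal' pb'
theorem sl2' : StmtSL2 := sl2 move' str' pb' is'
theorem pair' : StmtPAIR := Pool.Agent.Helper69.SZ.pair move' is'
theorem per' : StmtPER := Pool.Agent.Helper7.SZ.per
theorem sw' : StmtSW := Pool.Agent.Helper48.SZ.sw per' is'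
theorem core' : StmtCORE :=
  Pool.Agent.Helper12.SZ.core nrm' sl1' sl2' pair' sw' move' is'
theorem fin' : StmtFIN :=
  Pool.Agent.Helper13.SZ.fin core' Pool.Agent.Helper34.SZ.av cw'
theorem sumF' : StmtSUMF := sumF fin' (sum move' str' is') cw'
theorem disp' : StmtDISP := disp to' cw' fin'
theorem att' : StmtATT := att to' Pool.Agent.Helper69.SY.hv_ cw' fin' disp'

end Pool.Agent.Helper97.SZ
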