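import Pool.Agent.Helper97.SZ.DISP
import Pool.Agent.Helper87.SY.Flow2

/-!
# Project SZ: families of symplectic diffeomorphisms which move a point in all directions
-/

set_option autoImplicit false

open Set Filter Topology Metric
open scoped ContDiff

namespace Pool.Agent.Helper97.SZ

open Pool.Agent.Helper91.SY

section
variable {E : Type} [NormedAddCommGroup E] [NormedSpace ℝ E] [FiniteDimensional ℝ E]

/-- a smooth family of symplectic diffeomorphisms moving the point `p` in all directions -/
theorem fam (hTO : StmtTO) (hHV : StmtHV) {B : E → E →L[ℝ] E →L[ℝ] ℝ} {B0 : E →L[ℝ] E →L[ℝ] ℝ}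
    {R : ℝ} (hR : 0 ≤ R) (hB : Symp B) (hfar : Far R B B0) (p : E) :
    ∃ F : E → E → E, ContDiff ℝ ∞ (fun z : E × E => F z.1 z.2) ∧ (∀ x, F 0 x = x) ∧
      (∀ a, ∃ g : E ≃ E, Sm g ∧ Pull (fun x => g x) B B ∧ ∀ x, g x = F a x) ∧
      fderiv ℝ (fun a => F a p) 0 = ContinuousLinearMap.id ℝ E := by
  set b := Module.finBasis ℝ E with hb
  let c : Fin (Module.finrank ℝ E) → E →L[ℝ] ℝ := fun i => LinearMap.toContinuousLinearMap (b.coord i)
  have hc : ∀ a : E, ∑ i, c i a • b i = a := fun a => b.sum_repr a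
  let χ : ContDiffBump p := ⟨1, 2, one_pos, by norm_num⟩
  let f : Fin (Module.finrank ℝ E) → E → ℝ := fun i x => χ x * B p (b i) (x - p)
  have hf : ∀ i, ContDiff ℝ ∞ (f i) := fun i =>
    χ.contDiff.mul ((B p (b i)).contDiff.comp (contDiff_id.sub contDiff_const))
  have hf0 : ∀ i x, ‖p‖ + 2 ≤ ‖x‖ → f i x = 0 := by
    intro i x hx
    have h1 : χ x = 0 := by
      apply χ.zero_of_le_dist
      show (2 : ℝ) ≤ dist x p
      rw [dist_eq_norm]
      have := norm_sub_norm_le x p
      linarith
    show χ x * _ = 0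
    rw [h1, zero_mul]
  choose X hXs hXH using fun i => hHV E B (f i) hB (hf i)
  have hX0 : ∀ i x, ‖p‖ + 3 ≤ ‖x‖ → X i x = 0 := by
    intro i x hx
    have hev : f i =ᶠ[𝓝 x] fun _ => (0 : ℝ) := by
      have h1 : ∀ᶠ z in 𝓝 x, ‖p‖ + 2 < ‖z‖ :=
        continuous_norm.continuousAt.eventually (lt_mem_nhds (by linarith))
      filter_upwards [h1] with z hz
      exact hf0 i z hz.le
    apply hB.nondeg x
    intro v
    rw [hXH i x v, hev.fderiv_eq]
    simp
  have hfp : ∀ i v, fderiv ℝ (f i) p v = B p (b i) v := by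
    intro i v
    have hev : f i =ᶠ[𝓝 p] fun z => B p (b i) (z - p) := by
      have h1 : ∀ᶠ z in 𝓝 p, z ∈ closedBall p 1 := closedBall_mem_nhds p one_pos
      filter_upwards [h1] with z hz
      have h2 : χ z = 1 := χ.one_of_mem_closedBall hz
      show χ z * _ = _
      rw [h2, one_mul]
    have h3 : HasFDerivAt (fun z => B p (b i) (z - p)) (B p (b i)) p := by
      have h4 : HasFDerivAt (fun z : E => z - p) (ContinuousLinearMap.id ℝ E) p :=
        (hasFDerivAt_id p).sub_const p
      exact (B p (b i)).hasFDerivAt.comp p h4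
    rw [hev.fderiv_eq, h3.fderiv]
  -- the family of vector fields
  let Y : E → E → E := fun a x => ∑ i, c i a • X i x
  let fa : E → E → ℝ := fun a x => ∑ i, c i a * f i x
  have hfa : ∀ a, ContDiff ℝ ∞ (fa a) := fun a =>
    ContDiff.sum fun i _ => contDiff_const.mul (hf i)
  have hY : ContDiff ℝ ∞ (fun z : E × E => Y z.1 z.2) :=
    ContDiff.sum fun i _ => ((c i).contDiff.comp contDiff_fst).smul ((hXs i).comp contDiff_snd)
  have hYa : ∀ a, ContDiff ℝ ∞ (Y a) := fun a => hY.comp (contDiff_const.prodMk contDiff_id)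
  have hfd : ∀ a x, fderiv ℝ (fa a) x = ∑ i, c i a • fderiv ℝ (f i) x := by
    intro a x
    have h1 : HasFDerivAt (fa a) (∑ i, c i a • fderiv ℝ (f i) x) x := by
      apply HasFDerivAt.fun_sum
      intro i _
      exact (((hf i).differentiable (by simp)) x).hasFDerivAt.const_mul (c i a)
    exact h1.fderiv
  have hYH : ∀ a, Ham B (fa a) (Y a) := by
    intro a x v
    rw [hfd]
    show B x (∑ i, c i a • X i x) v = _
    rw [map_sum]
    have h1 : ∀ (g : Fin (Module.finrank ℝ E) → E →L[ℝ] ℝ), (∑ i, g i) v = ∑ i, g i v := fun g => by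
      rw [ContinuousLinearMap.sum_apply]
    rw [h1, h1]
    refine Finset.sum_congr rfl fun i _ => ?_
    rw [map_smul]
    show c i a * B x (X i x) v = c i a * fderiv ℝ (f i) x v
    rw [hXH]
  have hYl : ∀ (s : ℝ) a x, Y (s • a) x = s • Y a x := by
    intro s a x
    show ∑ i, c i (s • a) • X i x = s • ∑ i, c i a • X i x
    rw [Finset.smul_sum]
    refine Finset.sum_congr rfl fun i _ => ?_
    rw [map_smul, smul_eq_mul, mul_smul]
  have hYp : ∀ a, Y a p = a := by
    intro a
    have h0 : Y a p - a = 0 := by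
      apply hB.nondeg p
      intro v
      have h1 := hYH a p v
      rw [hfd] at h1
      have h2 : (∑ i, c i a • fderiv ℝ (f i) p) v = B p a v := by
        rw [ContinuousLinearMap.sum_apply]
        have h3 : B p a v = B p (∑ i, c i a • b i) v := by rw [hc]
        rw [h3, map_sum, ContinuousLinearMap.sum_apply]
        refine Finset.sum_congr rfl fun i _ => ?_
        rw [map_smul]
        show c i a * fderiv ℝ (f i) p v = c i a * B p (b i) v
        rw [hfp]
      rw [map_sub]
      show B p (Y a p) v - B p a v = 0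
      rw [h1, h2, sub_self]
    exact sub_eq_zero.1 h0
  -- cut-off in the parameter
  let θ : ContDiffBump (0 : E) := ⟨1, 2, one_pos, by norm_num⟩
  let β : E → E := fun a => θ a • a
  have hβ : ContDiff ℝ ∞ β := θ.contDiff.smul contDiff_id
  have hβ1 : ∀ a : E, ‖a‖ ≤ 1 → β a = a := by
    intro a ha
    have h2 : θ a = 1 := θ.one_of_mem_closedBall (by rw [mem_closedBall_zero_iff]; exact ha)
    show θ a • a = a
    rw [h2, one_smul]
  have hβ2 : ∀ a : E, 2 ≤ ‖a‖ → β a = 0 := by
    intro a ha
    have h2 : θ a = 0 := θ.zero_of_le_dist (by rw [dist_zero_right]; exact ha)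
    show θ a • a = 0
    rw [h2, zero_smul]
  let W : E × E → E × E := fun z => (0, Y (β z.1) z.2)
  have hW : ContDiff ℝ ∞ W :=
    contDiff_const.prodMk (hY.comp ((hβ.comp contDiff_fst).prodMk contDiff_snd))
  have hY0 : ∀ x, Y 0 x = 0 := by
    intro x
    have := hYl 0 0 x
    simpa using this
  have hWc : HasCompactSupport W := by
    refine HasCompactSupport.intro
      ((isCompact_closedBall (0 : E) 2).prod (isCompact_closedBall (0 : E) (‖p‖ + 3))) ?_
    rintro ⟨a, x⟩ hz
    by_cases ha : ‖a‖ ≤ 2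
    · have hx : ‖p‖ + 3 ≤ ‖x‖ := by
        by_contra hcon
        apply hz
        exact ⟨by rwa [mem_closedBall_zero_iff],
          by rw [mem_closedBall_zero_iff]; exact (not_le.1 hcon).le⟩
      show ((0 : E), ∑ i, c i (β a) • X i x) = 0
      have : ∑ i, c i (β a) • X i x = 0 := by
        apply Finset.sum_eq_zero
        intro i _
        rw [hX0 i x hx, smul_zero]
      rw [this]
      rfl
    · show ((0 : E), Y (β a) x) = 0
      rw [hβ2 a (not_le.1 ha).le, hY0]
      rfl
  obtain ⟨C, hC⟩ := hW.continuous.bounded_above_of_compact_support hWc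
  obtain ⟨Ψ, hΨ, hΨs⟩ := Pool.Agent.Helper87.SY.exists_flow hW hC
  have hfst : ∀ t a x, (Ψ t (a, x)).1 = a := by
    intro t a x
    have h1 : ∀ t, HasDerivAt (fun s => (Ψ s (a, x)).1) 0 t := fun t => (hΨ.2 (a, x) t).fst
    have h2 : (Ψ t (a, x)).1 = (Ψ 0 (a, x)).1 :=
      is_const_of_deriv_eq_zero (fun t => (h1 t).differentiableAt) (fun t => (h1 t).deriv) t 0
    rw [h2, hΨ.1]
  have hsnd : ∀ t a x, HasDerivAt (fun s => (Ψ s (a, x)).2) (Y (β a) (Ψ t (a, x)).2) t := by
    intro t a x
    have h0 : HasFDerivAt (fun z : E × E => z.2) (ContinuousLinearMap.snd ℝ E E) (Ψ t (a, x)) :=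
      hasFDerivAt_snd
    have h1' := h0.comp_hasDerivAt t (hΨ.2 (a, x) t)
    have h1 : HasDerivAt (fun s => (Ψ s (a, x)).2) (W (Ψ t (a, x))).2 t := h1'
    have h2 : (W (Ψ t (a, x))).2 = Y (β a) (Ψ t (a, x)).2 := by
      show Y (β (Ψ t (a, x)).1) (Ψ t (a, x)).2 = _
      rw [hfst]
    rwa [h2] at h1
  refine ⟨fun a x => (Ψ 1 (a, x)).2, ?_, ?_, ?_, ?_⟩
  · have h1 : ContDiff ℝ ∞ (fun z : E × E => Ψ 1 z) := hΨs.comp (contDiff_const.prodMk contDiff_id)
    exact h1.snd
  · intro x
    have h1 := Pool.Agent.Helper87.SY.sol_unique (W := Y (0 : E))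
      ((hYa 0).of_le (by exact_mod_cast le_top))
      (γ := fun _ : ℝ => x) (δ := fun s => (Ψ s (0, x)).2)
      (fun t _ => by
        rw [hY0]
        exact (hasDerivAt_const t x).hasDerivWithinAt)
      (fun t _ => by
        have h2 := hsnd t 0 x
        rw [hβ1 0 (by simp)] at h2
        exact h2.hasDerivWithinAt)
      (by simp only [hΨ.1])
    exact h1 1 (right_mem_Icc.mpr zero_le_one)
  · intro a
    obtain ⟨X', Φ', g, hX', hXH', -, hflow, -, hg1, -, hgS, hgp, -⟩ :=
      hTO E B B0 (max R (‖p‖ + 2)) (fa (β a)) 0 0 (hR.trans (le_max_left _ _)) hB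
        (fun x hx => hfar x ((le_max_left _ _).trans hx)) (hfa _)
        (by
          intro x hx
          show ∑ i, c i (β a) * f i x = 0
          apply Finset.sum_eq_zero
          intro i _
          rw [hf0 i x ((le_max_right _ _).trans hx), mul_zero])
        (by intro v; simp)
    refine ⟨g, hgS, hgp, fun x => ?_⟩
    have hXY : X' = Y (β a) := by
      funext y
      have h0 : X' y - Y (β a) y = 0 := by
        apply hB.nondeg y
        intro v
        rw [map_sub]
        show B y (X' y) v - B y (Y (β a) y) v = 0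
        rw [hXH', hYH, sub_self]
      exact sub_eq_zero.1 h0
    rw [hg1]
    have h1 := Pool.Agent.Helper87.SY.sol_unique (W := Y (β a))
      ((hYa _).of_le (by exact_mod_cast le_top))
      (γ := fun s => (Ψ s (a, x)).2) (δ := fun s => Φ' s x)
      (fun t _ => (hsnd t a x).hasDerivWithinAt)
      (fun t _ => by
        have h2 := hflow.deriv t x
        rw [hXY] at h2
        exact h2.hasDerivWithinAt)
      (by simp only [hΨ.1, hflow.zero])
    exact h1 1 (right_mem_Icc.mpr zero_le_one)
  · -- the derivative in the parameter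
    set D := fderiv ℝ (fun a => (Ψ 1 (a, p)).2) 0 with hD
    have hDd : HasFDerivAt (fun a => (Ψ 1 (a, p)).2) D 0 := by
      have h1 : ContDiff ℝ ∞ (fun z : E × E => Ψ 1 z) :=
        hΨs.comp (contDiff_const.prodMk contDiff_id)
      have h2 : ContDiff ℝ ∞ (fun a : E => (Ψ 1 (a, p)).2) :=
        (h1.comp (contDiff_id.prodMk contDiff_const)).snd
      exact (h2.differentiable (by simp)).differentiableAt.hasFDerivAt
    have hD1 : ∀ a : E, ‖a‖ ≤ 1 → D a = a := by
      intro a ha
      have h1 : HasDerivAt (fun s : ℝ => (Ψ 1 (s • a, p)).2) (D a) 0 := by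
        have h2 : HasDerivAt (fun s : ℝ => s • a) a 0 := by
          simpa using (hasDerivAt_id (0 : ℝ)).smul_const a
        have h3 : HasFDerivAt (fun a => (Ψ 1 (a, p)).2) D ((0 : ℝ) • a) := by
          rw [zero_smul]; exact hDd
        exact h3.comp_hasDerivAt 0 h2
      have h4 : HasDerivAt (fun s : ℝ => (Ψ s (a, p)).2) a 0 := by
        have h5 := hsnd 0 a p
        rw [hΨ.1, hβ1 a ha, hYp] at h5
        exact h5
      have h6 : ∀ s : ℝ, |s| ≤ 1 → (Ψ 1 (s • a, p)).2 = (Ψ s (a, p)).2 := by
        intro s hs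
        have h7 := Pool.Agent.Helper87.SY.sol_unique (W := Y (s • a))
          ((hYa _).of_le (by exact_mod_cast le_top))
          (γ := fun t => (Ψ (s * t) (a, p)).2) (δ := fun t => (Ψ t (s • a, p)).2)
          (fun t _ => by
            have h8 : HasDerivAt (fun t : ℝ => s * t) s t := by
              simpa using (hasDerivAt_id t).const_mul s
            have h9 := (hsnd (s * t) a p).scomp t h8
            rw [hβ1 a ha, ← hYl] at h9
            exact h9.hasDerivWithinAt)
          (fun t _ => by
            have h8 := hsnd t (s • a) p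
            rw [hβ1 (s • a)] at h8
            · exact h8.hasDerivWithinAt
            · rw [norm_smul, Real.norm_eq_abs]
              exact mul_le_one₀ hs (norm_nonneg _) ha)
          (by simp only [hΨ.1, mul_zero])
        have h10 := h7 1 (right_mem_Icc.mpr zero_le_one)
        simpa using h10
      have h7 : HasDerivAt (fun s : ℝ => (Ψ 1 (s • a, p)).2) a 0 := by
        apply h4.congr_of_eventuallyEq
        have h8 : ∀ᶠ s : ℝ in 𝓝 0, |s| < 1 :=
          continuous_abs.continuousAt.eventually (gt_mem_nhds (by simp))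
        filter_upwards [h8] with s hs
        exact h6 s hs.le
      exact h1.unique h7
    refine ContinuousLinearMap.ext fun a => ?_
    show D a = a
    rcases eq_or_ne a 0 with h | h
    · rw [h, map_zero]
    · have hna : ‖a‖ ≠ 0 := norm_ne_zero_iff.2 h
      have h1 := hD1 (‖a‖⁻¹ • a) (by rw [norm_smul, norm_inv, norm_norm, inv_mul_cancel₀ hna])
      rw [map_smul] at h1
      have h2 := congrArg (fun w => ‖a‖ • w) h1
      simp only [smul_smul, mul_inv_cancel₀ hna, one_smul] at h2
      exact h2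

end

end Pool.Agent.Helper97.SZ
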