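import Pool.Agent.Helper97.SZ.SUM
import Pool.Agent.Helper13.SZ.FIN

/-!
# Project SZ: the sum theorem and the global form of the criterion
-/

set_option autoImplicit false

open Set Filter Topology Metric
open scoped ContDiff

namespace Pool.Agent.Helper97.SZ

open Pool.Agent.Helper91.SY Pool.Agent.Helper13.SZ

/-- a far sum is standard iff both summands are -/
def StmtSUMF : Prop := ∀ n : ℕ, 2 ≤ n → ∀ (η η' σ : Form n) (R R' : ℝ) (q : V n), 0 < R → 0 < R' →
  StdAtInf η → Outside η R → StdAtInf η' → Outside η' R' → R + R' < ‖q‖ →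
  (∀ x u v, σ x ![u, v] = η' x ![u, v] + (η (x - q) ![u, v] - w0 u v)) →
  (Standard σ ↔ Standard η ∧ Standard η')

theorem sumF (hFIN : StmtFIN) (hSUM : StmtSUM) (hCW : StmtCW) : StmtSUMF := by
  intro n hn η η' σ R R' q hR hR' hη hηR hη' hηR' hq hσ
  constructor
  · rintro ⟨φ, hφ, h⟩
    refine ⟨((hFIN n hn η R hR hη hηR).out 4 0).1 ?_, ((hFIN n hn η' R' hR' hη' hηR').out 4 0).1 ?_⟩
    · refine ⟨η', R', q, φ, hη', hηR', hq, hφ, fun h => h.elim, fun x u v => ?_⟩
      rw [h, hσ]
    · refine ⟨η, R, -q, (Equiv.addRight q).trans φ, hη, hηR, by rw [norm_neg]; linarith, ?_,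
        fun h => h.elim, fun x u v => ?_⟩
      · constructor
        · exact hφ.1.comp (contDiff_id.add contDiff_const)
        · exact hφ.2.sub contDiff_const
      · have hd : fderiv ℝ (fun y => ((Equiv.addRight q).trans φ) y) x =
            fderiv ℝ (fun y => φ y) (x + q) := fderiv_comp_add_right (f := fun y => φ y) q
        rw [hd, h, hσ, add_sub_cancel_right, sub_neg_eq_add]
        ring
  · rintro ⟨⟨g, hg, h⟩, ⟨g', hg', h'⟩⟩
    obtain ⟨B, B0, R₁, hR₁, hB, _, hBη, hB0⟩ := hCW n η hη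
    obtain ⟨B', B0', R₁', hR₁', hB', _, hBη', hB0'⟩ := hCW n η' hη'
    have e0 : B0' = B0 := by
      refine ContinuousLinearMap.ext fun u => ContinuousLinearMap.ext fun v => ?_
      rw [hB0, hB0']
    subst e0
    have hfar : Far R B B0' := far_of_outside hR hB.smooth.continuous hBη hB0 hηR
    have hfar' : Far R' B' B0' := far_of_outside hR' hB'.smooth.continuous hBη' hB0' hηR'
    obtain ⟨φ, hφ, -, hp⟩ := hSUM n hn B B' B0' R R' q hR hR' hB hB' hfar hfar' hq
      ⟨g, hg, fun x hx => absurd (mem_univ x) hx, fun x u v => by rw [hB0, hBη, h]⟩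
      ⟨g', hg', fun x hx => absurd (mem_univ x) hx, fun x u v => by rw [hB0, hBη', h']⟩
    refine ⟨φ, hφ, fun x u v => ?_⟩
    have h1 := hp x u v
    change B0' (fderiv ℝ (fun x => φ x) x u) (fderiv ℝ (fun x => φ x) x v) =
      B' x u v + (B ((1 : ℝ)⁻¹ • (x - q)) u v - B0' u v) at h1
    rw [inv_one, one_smul, hB0, hB0, hBη, hBη'] at h1
    rw [hσ]
    exact h1

theorem exists_outside {n : ℕ} {η : Form n} (h : StdAtInf η) : ∃ R : ℝ, 0 < R ∧ Outside η R := by
  obtain ⟨K, hK, hs⟩ := h.std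
  obtain ⟨D, hD⟩ := hK.isBounded.subset_closedBall (0 : V n)
  refine ⟨max D 1, lt_of_lt_of_le one_pos (le_max_right _ _), fun x hx u v => hs x ?_ u v⟩
  intro hxK
  have := hD hxK
  rw [mem_closedBall_zero_iff] at this
  exact absurd (this.trans (le_max_left D 1)) (not_le.2 hx)

end Pool.Agent.Helper97.SZ
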