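import Pool.Agent.Helper97.SZ.FAM
import Pool.Agent.Helper97.SZ.INJ

/-!
# Project SZ: compact sets of small dimension are displaceable
-/

set_option autoImplicit false

open Set Filter Topology Metric MeasureTheory
open scoped ContDiff NNReal ENNReal

namespace Pool.Agent.Helper97.SZ

open Pool.Agent.Helper91.SY

section
variable {E : Type} [NormedAddCommGroup E] [NormedSpace ℝ E] [FiniteDimensional ℝ E]

/-- near `p` the parameter is a Lipschitz function of the image point and the point -/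
theorem loc {F : E → E → E} (hF : ContDiff ℝ ∞ (fun z : E × E => F z.1 z.2))
    (hF0 : ∀ x, F 0 x = x) (p : E) (hFp : fderiv ℝ (fun a => F a p) 0 = ContinuousLinearMap.id ℝ E) :
    ∃ (O : Set E) (r : ℝ) (A : E × E → E) (C : ℝ≥0), IsOpen O ∧ p ∈ O ∧ 0 < r ∧
      LipschitzOnWith C A (O ×ˢ O) ∧ ∀ a x, ‖a‖ < r → x ∈ O → A (F a x, x) = a := by
  set G : E × E → E := fun z => F z.1 z.2 with hG
  have hGd : HasFDerivAt G (fderiv ℝ G (0, p)) (0, p) :=
    (hF.differentiable (by simp)).differentiableAt.hasFDerivAt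
  have h1 : ∀ a, fderiv ℝ G (0, p) (a, 0) = a := by
    intro a
    have h2 : HasFDerivAt (fun a : E => (a, p)) (ContinuousLinearMap.inl ℝ E E) 0 :=
      (hasFDerivAt_id (0 : E)).prodMk (hasFDerivAt_const p (0 : E))
    have hGd' : HasFDerivAt G (fderiv ℝ G (0, p)) ((fun a : E => (a, p)) 0) := hGd
    have h3' := HasFDerivAt.comp (0 : E) hGd' h2
    have h3 : HasFDerivAt (fun a : E => G (a, p)) ((fderiv ℝ G (0, p)).comp
        (ContinuousLinearMap.inl ℝ E E)) 0 := h3'
    have h4 := h3.fderiv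
    have h5 : fderiv ℝ (fun a : E => G (a, p)) 0 = ContinuousLinearMap.id ℝ E := hFp
    rw [h5] at h4
    have h6 := congrArg (fun l : E →L[ℝ] E => l a) h4
    exact h6.symm
  have h1' : ∀ x, fderiv ℝ G (0, p) (0, x) = x := by
    intro x
    have h2 : HasFDerivAt (fun x : E => ((0 : E), x)) (ContinuousLinearMap.inr ℝ E E) p :=
      (hasFDerivAt_const (0 : E) p).prodMk (hasFDerivAt_id p)
    have hGd' : HasFDerivAt G (fderiv ℝ G (0, p)) ((fun x : E => ((0 : E), x)) p) := hGd
    have h3 : HasFDerivAt (fun x : E => G (0, x)) ((fderiv ℝ G (0, p)).comp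
        (ContinuousLinearMap.inr ℝ E E)) p := hGd'.comp p h2
    have h4 : HasFDerivAt (fun x : E => G (0, x)) (ContinuousLinearMap.id ℝ E) p := by
      have h5 : (fun x : E => G (0, x)) = fun x => x := by
        funext x
        exact hF0 x
      rw [h5]
      exact hasFDerivAt_id p
    have h6 := congrArg (fun l : E →L[ℝ] E => l x) (h3.unique h4)
    exact h6
  have h7 : ∀ a x, fderiv ℝ G (0, p) (a, x) = a + x := by
    intro a x
    have h8 : (a, x) = (a, (0 : E)) + ((0 : E), x) := by simp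
    rw [h8, map_add, h1, h1']
  -- the local diffeomorphism
  let Θ : E × E → E × E := fun z => (G z, z.2)
  let Θ' : (E × E) ≃L[ℝ] (E × E) := ContinuousLinearEquiv.equivOfInverse
    ((ContinuousLinearMap.fst ℝ E E + ContinuousLinearMap.snd ℝ E E).prod
      (ContinuousLinearMap.snd ℝ E E))
    ((ContinuousLinearMap.fst ℝ E E - ContinuousLinearMap.snd ℝ E E).prod
      (ContinuousLinearMap.snd ℝ E E))
    (by rintro ⟨a, x⟩; simp) (by rintro ⟨a, x⟩; simp)
  have hΘ : ContDiff ℝ ∞ Θ := hF.prodMk contDiff_snd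
  have hΘd : HasFDerivAt Θ (Θ' : E × E →L[ℝ] E × E) (0, p) := by
    have h2 : HasFDerivAt Θ ((fderiv ℝ G (0, p)).prod (ContinuousLinearMap.snd ℝ E E)) (0, p) :=
      hGd.prodMk hasFDerivAt_snd
    have h3 : (fderiv ℝ G (0, p)).prod (ContinuousLinearMap.snd ℝ E E) =
        (Θ' : E × E →L[ℝ] E × E) := by
      refine ContinuousLinearMap.ext fun z => ?_
      obtain ⟨a, x⟩ := z
      show (fderiv ℝ G (0, p) (a, x), x) = (a + x, x)
      rw [h7]
    rw [h3] at h2
    exact h2
  have hΘc : ContDiffAt ℝ 1 Θ (0, p) := (hΘ.of_le (by exact_mod_cast le_top)).contDiffAt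
  set h := hΘc.toOpenPartialHomeomorph Θ hΘd one_ne_zero with hh
  have hcoe : (h : E × E → E × E) = Θ := hΘc.toOpenPartialHomeomorph_coe hΘd one_ne_zero
  have hsrc : (0, p) ∈ h.source := hΘc.mem_toOpenPartialHomeomorph_source hΘd one_ne_zero
  have hsym : ContDiffAt ℝ 1 h.symm (Θ (0, p)) := hΘc.to_localInverse hΘd one_ne_zero
  have hΘp : Θ (0, p) = (p, p) := by
    show (F 0 p, p) = (p, p)
    rw [hF0]
  rw [hΘp] at hsym
  have hA : ContDiffAt ℝ 1 (fun w => (h.symm w).1) (p, p) := hsym.fst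
  obtain ⟨C, t, ht, hlip⟩ := hA.exists_lipschitzOnWith
  obtain ⟨u, hu, u', hu', huu⟩ := mem_nhds_prod_iff.1 ht
  obtain ⟨w, hw, w', hw', hww⟩ := mem_nhds_prod_iff.1 (h.open_source.mem_nhds hsrc)
  obtain ⟨r, hr, hrw⟩ := Metric.mem_nhds_iff.1 hw
  obtain ⟨O, hO, hOo, hpO⟩ := _root_.mem_nhds_iff.1 (inter_mem (inter_mem hu hu') hw')
  refine ⟨O, r, fun w => (h.symm w).1, C, hOo, hpO, hr, hlip.mono ?_, ?_⟩
  · intro z hz
    exact huu ⟨(hO hz.1).1.1, (hO hz.2).1.2⟩
  · intro a x ha hx
    have h2 : (a, x) ∈ h.source := hww ⟨hrw (by rwa [mem_ball_zero_iff]), (hO hx).2⟩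
    have h3 := h.left_inv h2
    rw [hcoe] at h3
    show (h.symm (F a x, x)).1 = a
    have h4 : Θ (a, x) = (F a x, x) := rfl
    rw [← h4, h3]

theorem pull_comp {B : E → E →L[ℝ] E →L[ℝ] ℝ} {g g' : E ≃ E} (hg : Sm g) (hg' : Sm g')
    (hp : Pull (fun x => g x) B B) (hp' : Pull (fun x => g' x) B B) :
    Sm (g.trans g') ∧ Pull (fun x => (g.trans g') x) B B := by
  refine ⟨⟨hg'.1.comp hg.1, hg.2.comp hg'.2⟩, ?_⟩
  intro x u v
  have h1 : fderiv ℝ (fun x => (g.trans g') x) x =
      (fderiv ℝ (fun x => g' x) (g x)).comp (fderiv ℝ (fun x => g x) x) := by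
    have h2 : HasFDerivAt (fun y => g' y) (fderiv ℝ (fun x => g' x) (g x)) (g x) :=
      (hg'.1.differentiable (by simp)).differentiableAt.hasFDerivAt
    have h3 : HasFDerivAt (fun y => g y) (fderiv ℝ (fun x => g x) x) x :=
      (hg.1.differentiable (by simp)).differentiableAt.hasFDerivAt
    exact (h2.comp x h3).fderiv
  rw [h1]
  exact (hp' (g x) _ _).trans (hp x u v)

/-- a smooth map is Lipschitz on balls -/
theorem lip_ball {g : E → E} (hg : ContDiff ℝ ∞ g) (D : ℝ) :
    ∃ L : ℝ≥0, LipschitzOnWith L g (closedBall 0 D) := by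
  obtain ⟨C, hC⟩ := (isCompact_closedBall (0 : E) D).exists_bound_of_continuousOn
    (hg.continuous_fderiv (by simp)).continuousOn
  refine ⟨⟨max C 0, le_max_right _ _⟩, ?_⟩
  refine Convex.lipschitzOnWith_of_nnnorm_fderiv_le (𝕜 := ℝ) ?_ ?_ (convex_closedBall _ _)
  · exact fun x _ => (hg.differentiable (by simp)) x
  · intro x hx
    show ‖fderiv ℝ g x‖ ≤ max C 0
    exact (hC x hx).trans (le_max_left _ _)

end

/-- A compact set `K` such that `K × K` has `2n`-dimensional measure zero can be displaced. -/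
theorem gen (hTO : StmtTO) (hHV : StmtHV) {n : ℕ} {B : V n → V n →L[ℝ] V n →L[ℝ] ℝ}
    {B0 : V n →L[ℝ] V n →L[ℝ] ℝ} {R : ℝ} (hR : 0 ≤ R) (hB : Symp B) (hfar : Far R B B0)
    {K : Set (V n)} (hK : IsCompact K) (h0 : μH[2 * n] (K ×ˢ K) = 0) :
    ∃ g : V n ≃ V n, Sm g ∧ Pull (fun x => g x) B B ∧ ∀ x ∈ K, g x ∉ K := by
  choose F hFs hF0 hFg hFp using fun p => fam hTO hHV hR hB hfar p
  choose O r A C hO hpO hr hA hAF using fun p => loc (hFs p) (hF0 p) p (hFp p)
  have hρ : ∀ p, ∃ ρ > 0, closedBall p ρ ⊆ O p := fun p =>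
    Metric.nhds_basis_closedBall.mem_iff.1 ((hO p).mem_nhds (hpO p))
  choose ρ hρ hρO using hρ
  obtain ⟨T, hTK, hKT⟩ := hK.elim_nhds_subcover (fun p => ball p (ρ p))
    (fun p _ => ball_mem_nhds p (hρ p))
  let Kp : V n → Set (V n) := fun p => K ∩ closedBall p (ρ p)
  have hKp : ∀ p, IsCompact (Kp p) := fun p => hK.inter_right isClosed_closedBall
  obtain ⟨D, hD⟩ := hK.isBounded.subset_closedBall (0 : V n)
  have hpos : ∀ U : Set (V n), IsOpen U → U.Nonempty → μH[2 * n] U ≠ 0 := by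
    intro U hU hne
    have h1 : ((2 * n : ℝ)) = ((Module.finrank ℝ (V n) : ℕ) : ℝ) := by
      rw [Module.finrank_prod, Module.finrank_fin_fun]
      push_cast
      ring
    rw [h1]
    exact hU.measure_ne_zero _ hne
  have key : ∀ S : Finset (V n), S ⊆ T → ∃ g : V n ≃ V n, Sm g ∧ Pull (fun x => g x) B B ∧
      (∀ p ∈ S, ∀ x ∈ Kp p, g x ∉ K) ∧ ∀ p ∈ T, ∀ x ∈ Kp p, g x ∈ O p := by
    intro S
    induction S using Finset.induction_on with
    | empty =>
      intro _
      refine ⟨Equiv.refl _, ⟨contDiff_id, contDiff_id⟩, ?_, by simp, ?_⟩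
      · intro x u v
        have h1 : fderiv ℝ (fun x : V n => (Equiv.refl (V n)) x) x = ContinuousLinearMap.id ℝ (V n) :=
          fderiv_id
        rw [h1]
        rfl
      · intro p _ x hx
        exact hρO p hx.2
    | insert q S hq ih =>
      intro hST
      obtain ⟨g, hg, hgp, hgS, hgT⟩ := ih ((Finset.subset_insert q S).trans hST)
      have hqT : q ∈ T := hST (Finset.mem_insert_self q S)
      have hcont : Continuous (fun z : V n × V n => F q z.1 (g z.2)) :=
        (hFs q).continuous.comp (continuous_fst.prodMk (hg.1.continuous.comp continuous_snd))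
      have ev1 : ∀ᶠ a in 𝓝 (0 : V n), ∀ p ∈ S, ∀ x ∈ Kp p, F q a (g x) ∉ K := by
        rw [Filter.eventually_all_finset]
        intro p hp
        apply (hKp p).eventually_forall_of_forall_eventually
        intro x hx
        have h1 : F q 0 (g x) ∈ Kᶜ := by
          rw [hF0]
          exact hgS p hp x hx
        exact (hcont.continuousAt (x := (0, x))).eventually
          (hK.isClosed.isOpen_compl.mem_nhds h1)
      have ev2 : ∀ᶠ a in 𝓝 (0 : V n), ∀ p ∈ T, ∀ x ∈ Kp p, F q a (g x) ∈ O p := by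
        rw [Filter.eventually_all_finset]
        intro p hp
        apply (hKp p).eventually_forall_of_forall_eventually
        intro x hx
        have h1 : F q 0 (g x) ∈ O p := by
          rw [hF0]
          exact hgT p hp x hx
        exact (hcont.continuousAt (x := (0, x))).eventually ((hO p).mem_nhds h1)
      have ev3 : ∀ᶠ a in 𝓝 (0 : V n), ‖a‖ < r q :=
        continuous_norm.continuousAt.eventually (gt_mem_nhds (by simpa using hr q))
      obtain ⟨U, hU, hUo, hU0⟩ := _root_.mem_nhds_iff.1 (ev1.and (ev2.and ev3))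
      -- the bad parameters
      set Bad : Set (V n) := A q '' ((K ∩ O q) ×ˢ ((fun x => g x) '' Kp q)) with hBad
      have hBad0 : μH[2 * n] Bad = 0 := by
        have h1 : (K ∩ O q) ×ˢ ((fun x => g x) '' Kp q) ⊆ O q ×ˢ O q := by
          rintro ⟨y, _⟩ ⟨hy, x, hx, rfl⟩
          exact ⟨hy.2, hgT q hqT x hx⟩
        have hd : (0 : ℝ) ≤ 2 * n := by positivity
        have h2 := ((hA q).mono h1).hausdorffMeasure_image_le hd
        obtain ⟨L, hL⟩ := lip_ball hg.1 D
        have h3 : LipschitzOnWith (max 1 L) (fun z : V n × V n => (z.1, g z.2)) (K ×ˢ K) := by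
          have h4 : LipschitzOnWith 1 (fun z : V n × V n => z.1) (K ×ˢ K) :=
            LipschitzWith.prod_fst.lipschitzOnWith
          have h5 : LipschitzOnWith L (fun z : V n × V n => g z.2) (K ×ˢ K) := by
            have h6 : LipschitzOnWith 1 (fun z : V n × V n => z.2) (K ×ˢ K) :=
              LipschitzWith.prod_snd.lipschitzOnWith
            have h7 := hL.comp h6 (fun z hz => hD hz.2)
            rw [mul_one] at h7
            exact h7
          exact h4.prodMk h5
        have h8 := h3.hausdorffMeasure_image_le hd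
        rw [h0, mul_zero] at h8
        have h9 : μH[2 * n] ((K ∩ O q) ×ˢ ((fun x => g x) '' Kp q)) = 0 := by
          apply measure_mono_null _ (nonpos_iff_eq_zero.1 h8)
          rintro ⟨y, _⟩ ⟨hy, x, hx, rfl⟩
          exact ⟨(y, x), ⟨hy.1, hx.1⟩, rfl⟩
        rw [h9, mul_zero] at h2
        exact nonpos_iff_eq_zero.1 h2
      obtain ⟨a, haU, haB⟩ : ∃ a ∈ U, a ∉ Bad := by
        by_contra hcon
        push Not at hcon
        exact hpos U hUo ⟨0, hU0⟩ (measure_mono_null hcon hBad0)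
      obtain ⟨ha1, ha2, ha3⟩ := hU haU
      obtain ⟨g', hg', hgp', hg'a⟩ := hFg q a
      obtain ⟨hc1, hc2⟩ := pull_comp hg hg' hgp hgp'
      refine ⟨g.trans g', hc1, hc2, ?_, ?_⟩
      · intro p hp x hx
        show g' (g x) ∉ K
        rw [hg'a]
        rcases Finset.mem_insert.1 hp with h | h
        · subst h
          intro hxK
          apply haB
          refine ⟨(F p a (g x), g x), ⟨⟨hxK, ha2 p hqT x hx⟩, x, hx, rfl⟩, ?_⟩
          exact hAF p a (g x) ha3 (hgT p hqT x hx)
        · exact ha1 p h x hx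
      · intro p hp x hx
        show g' (g x) ∈ O p
        rw [hg'a]
        exact ha2 p hp x hx
  obtain ⟨g, hg, hgp, hgS, -⟩ := key T subset_rfl
  refine ⟨g, hg, hgp, fun x hx => ?_⟩
  have h1 := hKT hx
  simp only [mem_iUnion] at h1
  obtain ⟨p, hp, hxp⟩ := h1
  exact hgS p hp x ⟨hx, ball_subset_closedBall hxp⟩

end Pool.Agent.Helper97.SZ
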