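import Pool.Agent.Helper97.SZ.Goals

/-!
# Project SZ, packet SL2: sliding the inserted form to infinity
-/

set_option autoImplicit false

open Set Filter Topology Metric
open scoped ContDiff

namespace Pool.Agent.Helper97.SZ

open Pool.Agent.Helper91.SY

section
variable {E : Type} [NormedAddCommGroup E] [NormedSpace ℝ E]

/-- isomorphism with bounded support -/
def IsoB (B B' : E → E →L[ℝ] E →L[ℝ] ℝ) : Prop := ∃ D : ℝ, Iso (closedBall 0 D) B B'

theorem IsoB.symm (hIS : StmtIS) {B B' : E → E →L[ℝ] E →L[ℝ] ℝ} (h : IsoB B B') : IsoB B' B := by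
  obtain ⟨D, h⟩ := h
  exact ⟨D, (hIS E).2.1 _ _ _ h⟩

theorem IsoB.trans (hIS : StmtIS) {B B' B'' : E → E →L[ℝ] E →L[ℝ] ℝ} (h : IsoB B B')
    (h' : IsoB B' B'') : IsoB B B'' := by
  obtain ⟨D, h⟩ := h
  obtain ⟨D', h'⟩ := h'
  refine ⟨max D D', (hIS E).2.2.2.1 _ _ _ _ ?_ ((hIS E).2.2.1 _ _ _ _ _ h h')⟩
  apply union_subset
  · exact closedBall_subset_closedBall (le_max_left _ _)
  · exact closedBall_subset_closedBall (le_max_right _ _)

theorem isoB_of_iso (hIS : StmtIS) {K : Set E} (hK : IsCompact K)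
    {B B' : E → E →L[ℝ] E →L[ℝ] ℝ} (h : Iso K B B') : IsoB B B' := by
  obtain ⟨D, hD⟩ := hK.isBounded.subset_closedBall (0 : E)
  exact ⟨D, (hIS E).2.2.2.1 _ _ _ _ hD h⟩

/-- the derivatives of two maps which are inverse to each other near a point -/
theorem fderiv_inv {f g : E → E} {x : E} (hf : DifferentiableAt ℝ f x)
    (hg : DifferentiableAt ℝ g (f x)) (h : ∀ᶠ y in 𝓝 x, g (f y) = y) (u : E) :
    fderiv ℝ g (f x) (fderiv ℝ f x u) = u := by
  have h1 : HasFDerivAt (g ∘ f) ((fderiv ℝ g (f x)).comp (fderiv ℝ f x)) x :=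
    hg.hasFDerivAt.comp x hf.hasFDerivAt
  have h2 : HasFDerivAt (g ∘ f) (ContinuousLinearMap.id ℝ E) x := by
    apply (hasFDerivAt_id x).congr_of_eventuallyEq
    filter_upwards [h] with y hy
    exact hy
  have h3 := h1.unique h2
  have h4 := congrArg (fun L : E →L[ℝ] E => L u) h3
  exact h4

theorem fderiv_of_id {g : E → E} {x : E} (h : ∀ᶠ y in 𝓝 x, g y = y) :
    fderiv ℝ g x = ContinuousLinearMap.id ℝ E := by
  have h2 : HasFDerivAt g (ContinuousLinearMap.id ℝ E) x := by
    apply (hasFDerivAt_id x).congr_of_eventuallyEq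
    filter_upwards [h] with y hy
    exact hy
  exact h2.fderiv

theorem pb_apply (g : E → E) (B : E → E →L[ℝ] E →L[ℝ] ℝ) (x u v : E) :
    pb g B x u v = B (g x) (fderiv ℝ g x u) (fderiv ℝ g x v) := rfl

theorem ins_far {B0 : E →L[ℝ] E →L[ℝ] ℝ} {B Θ : E → E →L[ℝ] E →L[ℝ] ℝ} {R : ℝ} (hB : Far R B B0)
    {c : E} {μ : ℝ} {x : E} (h : R ≤ ‖μ⁻¹ • (x - c)‖) : ins B0 B Θ c μ x = Θ x := by
  unfold ins
  rw [hB _ h]
  exact (congrArg (Θ x + ·) (sub_self B0)).trans (add_zero _)

end

theorem sl2 (hMV : StmtMOVE) (hST : StmtSTR) (hPB : StmtPB) (hIS : StmtIS) : StmtSL2 := by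
  intro n hn B Z B0 R D ψ G e e₂ ℓ₂ hR hRD hB hBf hψ hψ0 hψ1 hψp hG hGD hGψ hZ hZf hZR hPull he he₂
    hℓ hℓe hℓe₂
  set q : V n := (3 / 4 * R) • e₂ with hq
  set T₀ : ℝ := D + R + 1 with hT₀
  have hD : 0 < D := hR.trans hRD
  have hqn : ‖q‖ = 3 / 4 * R := by
    rw [hq, norm_smul, he₂, mul_one, Real.norm_of_nonneg (by positivity)]
  have hGs : ∀ x : V n, D ≤ ‖x‖ → G.symm x = x := by
    intro x hx
    rw [Equiv.symm_apply_eq, hGD x hx]
  have hG0 : G 0 = 0 := by
    have := hGψ 0 (by simp [hR.le])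
    rwa [hψ0] at this
  have hGd : ∀ x, DifferentiableAt ℝ (fun y => G y) x := fun x =>
    (hG.1.differentiable (by simp)).differentiableAt
  have hGsd : ∀ x, DifferentiableAt ℝ (fun y => G.symm y) x := fun x =>
    (hG.2.differentiable (by simp)).differentiableAt
  have hψG : ∀ y : V n, ‖G y‖ ≤ R → ψ (G y) = y := by
    intro y hy
    exact G.injective (hGψ _ hy)
  -- (a)
  have ia : IsoB (ins B0 B Z q (1 / 4)) (fun _ => B0) := by
    refine ⟨D, G.symm, ⟨hG.2, hG.1⟩, ?_, hPull⟩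
    intro x hx
    apply hGs
    rw [mem_closedBall_zero_iff, not_le] at hx
    exact hx.le
  -- (o)
  set Θ : V n → V n →L[ℝ] V n →L[ℝ] ℝ := pb (fun x => G x) Z with hΘ
  have hΘs : Symp Θ := (hPB (V n) G Z hG hZ).1
  have ho : ∀ y : V n, R / 4 < ‖G y - q‖ → Θ y = B0 := by
    intro y hy
    refine ContinuousLinearMap.ext fun u => ContinuousLinearMap.ext fun v => ?_
    rw [hΘ, pb_apply]
    have h1 := hPull (G y) (fderiv ℝ (fun y => G y) y u) (fderiv ℝ (fun y => G y) y v)
    have h2 : ∀ w, fderiv ℝ (fun x => G.symm x) (G y) (fderiv ℝ (fun y => G y) y w) = w := by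
      intro w
      exact fderiv_inv (f := fun y => G y) (g := fun y => G.symm y) (hGd y) (hGsd _)
        (Eventually.of_forall fun z => G.symm_apply_apply z) w
    rw [h2, h2] at h1
    rw [ins_far hBf] at h1
    · exact h1.symm
    · rw [norm_smul]
      norm_num
      linarith
  have hq4 : R / 4 < ‖G 0 - q‖ := by
    rw [hG0, zero_sub, norm_neg, hqn]
    linarith
  -- δ
  obtain ⟨δ, hδ, hδG⟩ : ∃ δ > 0, ∀ y : V n, ‖y‖ < δ → R / 4 < ‖G y - q‖ := by
    have hc : ContinuousAt (fun y : V n => ‖G y - q‖) 0 :=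
      ((hG.1.continuous.sub continuous_const).norm).continuousAt
    have := hc.eventually (lt_mem_nhds hq4)
    obtain ⟨δ, hδ, h⟩ := Metric.eventually_nhds_iff.1 this
    refine ⟨δ, hδ, fun y hy => h ?_⟩
    rwa [dist_zero_right]
  -- the chart near 0
  have hWp : ∀ x ∈ ball (0 : V n) (R / 4), ∀ u v, B0 (fderiv ℝ ψ x u) (fderiv ℝ ψ x v) = B0 u v := by
    intro x hx u v
    rw [mem_ball_zero_iff] at hx
    rw [hψp x (by linarith) u v, hBf]
    rw [norm_smul]
    have h1 : ‖q‖ - ‖x‖ ≤ ‖x - q‖ := by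
      rw [norm_sub_rev]
      exact norm_sub_norm_le q x
    norm_num
    rw [hqn] at h1
    linarith
  obtain ⟨ε₀, hε₀, hSTR⟩ := hST n hn B B0 R ψ (ball 0 (R / 4)) δ hR hB hBf isOpen_ball
    (by rw [mem_ball_zero_iff, norm_zero]; linarith)
    (hψ.mono (ball_subset_ball (by linarith))) hψ0 hψ1 hWp hδ
  -- ψ maps a small ball into the ball of radius δ
  obtain ⟨r₁, hr₁, hr₁ψ⟩ : ∃ r > 0, ∀ x : V n, ‖x‖ < r → ‖ψ x‖ < δ := by
    have hc : ContinuousAt ψ 0 := (hψ.continuousOn.continuousAt (ball_mem_nhds 0 hR))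
    have h0 : ‖ψ 0‖ < δ := by rw [hψ0, norm_zero]; exact hδ
    have := hc.norm.eventually (gt_mem_nhds h0)
    obtain ⟨r, hr, h⟩ := Metric.eventually_nhds_iff.1 this
    refine ⟨r, hr, fun y hy => h ?_⟩
    rwa [dist_zero_right]
  -- the path
  set c : ℝ → V n := fun t => G.symm ((t * T₀) • e) with hc
  have hcs : ContDiff ℝ ∞ c := by
    apply hG.2.comp
    exact (contDiff_id.mul contDiff_const).smul contDiff_const
  have hcA : ∀ t, R / 4 < ‖G (c t) - q‖ := by
    intro t
    rw [hc]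
    simp only [Equiv.apply_symm_apply]
    have h1 := hℓ ((t * T₀) • e - q)
    rw [map_sub, map_smul, hℓe, hq, map_smul, hℓe₂] at h1
    simp only [smul_eq_mul, mul_zero, mul_one, zero_sub, abs_neg] at h1
    rw [abs_of_pos (by positivity)] at h1
    rw [hq]
    linarith
  obtain ⟨r₂, hr₂, hr₂A⟩ : ∃ r > 0, ∀ t ∈ Icc (0 : ℝ) 1, ∀ y : V n, ‖y - c t‖ ≤ r →
      R / 4 < ‖G y - q‖ := by
    have hP : IsCompact (c '' Icc 0 1) := isCompact_Icc.image hcs.continuous
    have hA : IsClosed {y : V n | ‖G y - q‖ ≤ R / 4} :=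
      isClosed_le ((hG.1.continuous.sub continuous_const).norm) continuous_const
    have hdis : Disjoint (c '' Icc 0 1) {y : V n | ‖G y - q‖ ≤ R / 4} := by
      rw [Set.disjoint_left]
      rintro _ ⟨t, _, rfl⟩ h
      exact absurd h (not_le.2 (hcA t))
    obtain ⟨r, hr, h⟩ := hdis.exists_cthickenings hP hA
    refine ⟨r, hr, fun t ht y hy => ?_⟩
    by_contra hcon
    rw [not_lt] at hcon
    have h1 : y ∈ cthickening r (c '' Icc 0 1) := by
      apply mem_cthickening_of_dist_le y (c t) r _ (mem_image_of_mem c ht)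
      rw [dist_eq_norm]
      exact hy
    exact Set.disjoint_left.1 h h1 (self_subset_cthickening _ hcon)
  -- ε
  obtain ⟨ε, hε, hε1, hε2, hε3, hε4⟩ : ∃ ε : ℝ, 0 < ε ∧ ε ≤ ε₀ ∧ ε ≤ 1 / 8 ∧ ε * R < r₁ ∧
      ε * R ≤ r₂ := by
    refine ⟨min ε₀ (min (1 / 8) (min (r₁ / (2 * R)) (r₂ / R))), ?_, min_le_left _ _, ?_, ?_, ?_⟩
    · positivity
    · exact (min_le_right _ _).trans (min_le_left _ _)
    · have h1 : min ε₀ (min (1 / 8) (min (r₁ / (2 * R)) (r₂ / R))) ≤ r₁ / (2 * R) :=
        (min_le_right _ _).trans ((min_le_right _ _).trans (min_le_left _ _))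
      calc min ε₀ (min (1 / 8) (min (r₁ / (2 * R)) (r₂ / R))) * R ≤ r₁ / (2 * R) * R :=
            mul_le_mul_of_nonneg_right h1 hR.le
        _ = r₁ / 2 := by field_simp
        _ < r₁ := by linarith
    · have h1 : min ε₀ (min (1 / 8) (min (r₁ / (2 * R)) (r₂ / R))) ≤ r₂ / R :=
        (min_le_right _ _).trans ((min_le_right _ _).trans (min_le_right _ _))
      calc min ε₀ (min (1 / 8) (min (r₁ / (2 * R)) (r₂ / R))) * R ≤ r₂ / R * R :=
            mul_le_mul_of_nonneg_right h1 hR.le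
        _ = r₂ := by field_simp
  have hεi : ∀ w : V n, ε * R ≤ ‖w‖ → R ≤ ‖ε⁻¹ • w‖ := by
    intro w hw
    rw [norm_smul, norm_inv, Real.norm_of_nonneg hε.le, le_inv_mul_iff₀ hε]
    exact hw
  -- (b)
  have ib : IsoB (ins B0 B Z q (1 / 4)) (ins B0 B Z 0 ε) := by
    apply isoB_of_iso hIS (isCompact_closedBall (0 : V n) R)
    have h := hMV n hn B Z B0 R (fun t => (1 - t) • q) (fun t => (1 - t) / 4 + t * ε)
      (closedBall 0 R) hR hB hBf hZ ((contDiff_const.sub contDiff_id).smul contDiff_const)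
      (((contDiff_const.sub contDiff_id).div_const _).add (contDiff_id.mul contDiff_const))
      ?_ (isCompact_closedBall _ _) ?_ ?_
    · simpa using h
    · intro t ht
      rcases lt_or_eq_of_le ht.2 with h | h
      · have : 0 < (1 - t) / 4 := by linarith
        have : 0 ≤ t * ε := mul_nonneg ht.1 hε.le
        linarith
      · rw [h]; simpa using hε
    · intro t ht x hx
      rw [mem_closedBall_zero_iff]
      have h1 : ‖x‖ ≤ ‖x - (1 - t) • q‖ + ‖(1 - t) • q‖ := by
        have := norm_add_le (x - (1 - t) • q) ((1 - t) • q)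
        simpa using this
      rw [norm_smul, Real.norm_of_nonneg (by linarith [ht.2] : (0 : ℝ) ≤ 1 - t), hqn] at h1
      have h2 : t * ε * R ≤ t * R := by
        apply mul_le_mul_of_nonneg_right _ hR.le
        nlinarith [ht.1]
      nlinarith
    · intro x hx
      exact hZR x (by simpa using hx)
  -- (c)
  set T : V n → V n →L[ℝ] V n →L[ℝ] ℝ := pb (fun x => G x) (ins B0 B Z 0 ε) with hT
  have hGK : ∀ x : V n, x ∉ closedBall (0 : V n) D → G x = x := by
    intro x hx
    apply hGD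
    rw [mem_closedBall_zero_iff, not_le] at hx
    exact hx.le
  have ic : IsoB T (ins B0 B Z 0 ε) := ⟨D, G, hG, hGK, fun x u v => rfl⟩
  -- (d)
  have hTΘ : ∀ y : V n, ε * R ≤ ‖G y‖ → T y = Θ y := by
    intro y hy
    refine ContinuousLinearMap.ext fun u => ContinuousLinearMap.ext fun v => ?_
    rw [hT, hΘ, pb_apply, pb_apply, ins_far hBf]
    rw [sub_zero]
    exact hεi _ hy
  have id' : IsoB (ins B0 B Θ 0 ε) T := by
    refine ⟨δ, hSTR ε hε hε1 Θ T ?_ ?_ ?_ ?_⟩
    · intro y hy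
      exact ho y (hδG y hy)
    · intro y hy
      apply hTΘ
      by_contra hcon
      rw [not_le] at hcon
      have h1 := hr₁ψ (G y) (hcon.trans hε3)
      rw [hψG y (by nlinarith)] at h1
      linarith
    · intro y hy hx
      rw [hTΘ y, ho y (hδG y hy)]
      by_contra hcon
      rw [not_le] at hcon
      apply hx (G y)
      · rw [mem_ball_zero_iff]
        nlinarith
      · exact hcon.le
      · exact hψG y (by nlinarith)
    · intro x hx u v
      rw [mem_ball_zero_iff] at hx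
      have hxR : ‖x‖ < R := by linarith
      have hd : DifferentiableAt ℝ ψ x :=
        (hψ.contDiffAt (isOpen_ball.mem_nhds (by rwa [mem_ball_zero_iff]))).differentiableAt
          (by simp)
      have h2 : ∀ w, fderiv ℝ (fun x => G x) (ψ x) (fderiv ℝ ψ x w) = w := by
        intro w
        apply fderiv_inv (f := ψ) (g := fun y => G y) hd (hGd _)
        filter_upwards [isOpen_ball.mem_nhds (show x ∈ ball (0 : V n) R by
          rwa [mem_ball_zero_iff])] with y hy
        exact hGψ y (by rw [mem_ball_zero_iff] at hy; exact hy.le)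
      rw [hT, pb_apply, h2, h2]
      show ins B0 B Z 0 ε (G (ψ x)) u v = _
      rw [hGψ x hxR.le]
      show Z x u v + (B (ε⁻¹ • (x - 0)) u v - B0 u v) = B (ε⁻¹ • x) u v
      rw [hZR x hxR.le, sub_zero]
      ring
  -- (e)
  have hc0 : c 0 = 0 := by
    rw [hc]
    simp only [zero_mul, zero_smul]
    rw [Equiv.symm_apply_eq, hG0]
  have hT₀n : ‖T₀ • e‖ = T₀ := by
    rw [norm_smul, he, mul_one, Real.norm_of_nonneg (by rw [hT₀]; linarith)]
  have hc1 : c 1 = T₀ • e := by
    rw [hc]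
    simp only [one_mul]
    apply hGs
    rw [hT₀n, hT₀]
    linarith
  have ie : IsoB (ins B0 B Θ 0 ε) (ins B0 B Θ (T₀ • e) ε) := by
    have hKc : IsCompact ((fun p : ℝ × V n => c p.1 + p.2) '' (Icc 0 1 ×ˢ closedBall 0 (ε * R))) := by
      apply (isCompact_Icc.prod (isCompact_closedBall _ _)).image
      exact (hcs.continuous.comp continuous_fst).add continuous_snd
    apply isoB_of_iso hIS hKc
    have h := hMV n hn B Θ B0 R c (fun _ => ε) _ hR hB hBf hΘs hcs contDiff_const (fun _ _ => hε)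
      hKc ?_ ?_
    · rw [hc0, hc1] at h
      exact h
    · intro t ht x hx
      refine ⟨(t, x - c t), ⟨ht, ?_⟩, ?_⟩
      · rw [mem_closedBall_zero_iff]
        exact hx
      · simp
    · rintro _ ⟨⟨t, z⟩, ⟨ht, hz⟩, rfl⟩
      apply ho
      apply hr₂A t ht
      rw [mem_closedBall_zero_iff] at hz
      simpa using hz.trans hε4
  -- (f)
  have hGle : ∀ y : V n, ‖y‖ ≤ D → ‖G y‖ ≤ D := by
    intro y hy
    by_contra hcon
    rw [not_le] at hcon
    have h1 : G y = y := G.injective (hGD _ hcon.le)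
    rw [h1] at hcon
    linarith
  have hfarD : ∀ w : V n, ‖w‖ ≤ D → R ≤ ‖ε⁻¹ • (w - T₀ • e)‖ := by
    intro w hw
    apply hεi
    have h1 : ‖T₀ • e‖ - ‖w‖ ≤ ‖w - T₀ • e‖ := by
      rw [norm_sub_rev]
      exact norm_sub_norm_le _ _
    rw [hT₀n, hT₀] at h1
    nlinarith
  have if' : IsoB (ins B0 B Θ (T₀ • e) ε) (ins B0 B Z (T₀ • e) ε) := by
    refine ⟨D, G, hG, hGK, ?_⟩
    intro y u v
    rcases le_or_gt ‖y‖ D with hy | hy
    · rw [ins_far hBf (hfarD y hy)]
      simp only []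
      rw [ins_far hBf (hfarD (G y) (hGle y hy))]
      rfl
    · have h1 : ∀ᶠ z in 𝓝 y, G z = z := by
        have : ∀ᶠ z in 𝓝 y, D < ‖z‖ := continuous_norm.continuousAt.eventually (lt_mem_nhds hy)
        filter_upwards [this] with z hz
        exact hGD z hz.le
      have h2 : fderiv ℝ (fun x => G x) y = ContinuousLinearMap.id ℝ (V n) := fderiv_of_id h1
      have h3 : G y = y := hGD y hy.le
      have h4 : Θ y = Z y := by
        refine ContinuousLinearMap.ext fun u => ContinuousLinearMap.ext fun v => ?_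
        rw [hΘ, pb_apply, h2]
        simp only [ContinuousLinearMap.id_apply]
        rw [h3]
      simp only [h2, ContinuousLinearMap.id_apply]
      rw [h3]
      unfold ins
      rw [h4]
  -- (g)
  have ig : IsoB (ins B0 B Z (T₀ • e) ε) (ins B0 B Z (T₀ • e) 1) := by
    apply isoB_of_iso hIS (isCompact_closedBall (T₀ • e) R)
    have h := hMV n hn B Z B0 R (fun _ => T₀ • e) (fun t => (1 - t) * ε + t)
      (closedBall (T₀ • e) R) hR hB hBf hZ contDiff_const
      (((contDiff_const.sub contDiff_id).mul contDiff_const).add contDiff_id)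
      ?_ (isCompact_closedBall _ _) ?_ ?_
    · simpa using h
    · intro t ht
      rcases lt_or_eq_of_le ht.1 with h | h
      · have : 0 ≤ (1 - t) * ε := mul_nonneg (by linarith [ht.2]) hε.le
        linarith
      · rw [← h]; simpa using hε
    · intro t ht x hx
      rw [mem_closedBall, dist_eq_norm]
      refine hx.trans ?_
      have : (1 - t) * ε + t ≤ 1 := by nlinarith [ht.2]
      nlinarith
    · intro x hx
      apply hZf
      rw [mem_closedBall, dist_eq_norm] at hx
      have h1 : ‖T₀ • e‖ ≤ ‖x - T₀ • e‖ + ‖x‖ := by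
        have := norm_sub_le x (x - T₀ • e)
        simp only [sub_sub_cancel] at this
        linarith
      rw [hT₀n, hT₀] at h1
      linarith
  -- composition
  obtain ⟨D₁, h⟩ := (ig.symm hIS).trans hIS ((if'.symm hIS).trans hIS ((ie.symm hIS).trans hIS
    (id'.trans hIS (ic.trans hIS ((ib.symm hIS).trans hIS ia)))))
  exact ⟨D₁, h⟩

end Pool.Agent.Helper97.SZ
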