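import Pool.Agent.Helper97.SZ.SL2

/-!
# Project SZ: the sum of two standard forms is standard
-/

set_option autoImplicit false

open Set Filter Topology Metric
open scoped ContDiff

namespace Pool.Agent.Helper97.SZ

open Pool.Agent.Helper91.SY

section
variable {E : Type} [NormedAddCommGroup E] [NormedSpace ℝ E]

theorem iso_symm (hIS : StmtIS) {B B' : E → E →L[ℝ] E →L[ℝ] ℝ} (h : Iso univ B B') :
    Iso univ B' B := (hIS E).2.1 _ _ _ h

theorem iso_trans (hIS : StmtIS) {B B' B'' : E → E →L[ℝ] E →L[ℝ] ℝ} (h : Iso univ B B')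
    (h' : Iso univ B' B'') : Iso univ B B'' :=
  (hIS E).2.2.2.1 _ _ _ _ (subset_univ _) ((hIS E).2.2.1 _ _ _ _ _ h h')

theorem iso_univ (hIS : StmtIS) {K : Set E} {B B' : E → E →L[ℝ] E →L[ℝ] ℝ} (h : Iso K B B') :
    Iso univ B B' := (hIS E).2.2.2.1 _ _ _ _ (subset_univ _) h

end

/-- the sum of two standard forms is standard -/
def StmtSUM : Prop := ∀ n : ℕ, 2 ≤ n → ∀ (B B' : V n → V n →L[ℝ] V n →L[ℝ] ℝ)
  (B0 : V n →L[ℝ] V n →L[ℝ] ℝ) (R R' : ℝ) (q : V n), 0 < R → 0 < R' → Symp B → Symp B' →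
  Far R B B0 → Far R' B' B0 → R + R' < ‖q‖ → Iso univ B (fun _ => B0) →
  Iso univ B' (fun _ => B0) → Iso univ (ins B0 B B' q 1) (fun _ => B0)

theorem sum (hMV : StmtMOVE) (hST : StmtSTR) (hIS : StmtIS) : StmtSUM := by
  intro n hn B B' B0 R R' q hR hR' hB hB' hBf hBf' hq hI hI'
  obtain ⟨g, hg, -, hgp⟩ := hI'
  have hgp' : ∀ x u v, B0 (fderiv ℝ (fun x => g x) x u) (fderiv ℝ (fun x => g x) x v) = B' x u v :=
    fun x u v => hgp x u v
  have hgd : ∀ x, DifferentiableAt ℝ (fun y => g y) x := fun x =>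
    (hg.1.differentiable (by simp)).differentiableAt
  have hgsd : ∀ x, DifferentiableAt ℝ (fun y => g.symm y) x := fun x =>
    (hg.2.differentiable (by simp)).differentiableAt
  set L : V n →L[ℝ] V n := fderiv ℝ (fun y => g y) q with hL
  set L' : V n →L[ℝ] V n := fderiv ℝ (fun y => g.symm y) (g q) with hL'
  have hL'L : ∀ u, L' (L u) = u := fun u =>
    fderiv_inv (f := fun y => g y) (g := fun y => g.symm y) (hgd q) (hgsd _)
      (Eventually.of_forall fun z => g.symm_apply_apply z) u
  have hLL' : ∀ u, L (L' u) = u := by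
    intro u
    have h := fderiv_inv (f := fun y => g.symm y) (g := fun y => g y) (x := g q) (hgsd _) (hgd _)
      (Eventually.of_forall fun z => g.apply_symm_apply z) u
    simp only [Equiv.symm_apply_apply] at h
    exact h
  have hqR : R' ≤ ‖q‖ := by linarith
  have hB0L : ∀ a b, B0 (L' a) (L' b) = B0 a b := by
    intro a b
    have h := hgp' q (L' a) (L' b)
    rw [← hL, hLL', hLL', hBf' q hqR] at h
    exact h.symm
  -- the normalized chart
  let Ψ : V n ≃ V n :=
    { toFun := fun x => L' (g (x + q) - g q)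
      invFun := fun y => g.symm (L y + g q) - q
      left_inv := by
        intro x
        simp only [hLL', sub_add_cancel, Equiv.symm_apply_apply, add_sub_cancel_right]
      right_inv := by
        intro y
        simp only [sub_add_cancel, Equiv.apply_symm_apply, add_sub_cancel_right, hL'L] }
  have hΨ : Sm Ψ := by
    constructor
    · exact L'.contDiff.comp ((hg.1.comp (contDiff_id.add contDiff_const)).sub contDiff_const)
    · exact (hg.2.comp (L.contDiff.add contDiff_const)).sub contDiff_const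
  have hΨ0 : Ψ 0 = 0 := by
    show L' (g (0 + q) - g q) = 0
    rw [zero_add, sub_self, map_zero]
  have hΨd : ∀ x u, fderiv ℝ (fun y => Ψ y) x u = L' (fderiv ℝ (fun y => g y) (x + q) u) := by
    intro x u
    have h1 : HasFDerivAt (fun y => g (y + q)) (fderiv ℝ (fun y => g y) (x + q)) x := by
      have h2 : HasFDerivAt (fun y : V n => y + q) (ContinuousLinearMap.id ℝ (V n)) x :=
        (hasFDerivAt_id x).add_const q
      have h3 : HasFDerivAt (fun y => g y) (fderiv ℝ (fun y => g y) (x + q)) (x + q) :=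
        (hgd _).hasFDerivAt
      exact h3.comp x h2
    have h4 : HasFDerivAt (fun y => Ψ y) (L'.comp (fderiv ℝ (fun y => g y) (x + q))) x :=
      L'.hasFDerivAt.comp x (h1.sub_const (g q))
    rw [h4.fderiv]
    rfl
  have hΨ1 : fderiv ℝ (fun y => Ψ y) 0 = ContinuousLinearMap.id ℝ (V n) := by
    refine ContinuousLinearMap.ext fun u => ?_
    rw [hΨd, zero_add]
    exact hL'L u
  have hΨp : ∀ x u v, B0 (fderiv ℝ (fun y => Ψ y) x u) (fderiv ℝ (fun y => Ψ y) x v) =
      B' (x + q) u v := by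
    intro x u v
    rw [hΨd, hΨd, hB0L, hgp']
  -- the radius on which the background is constant
  have hr : R < ‖q‖ - R' := by linarith
  have hcon : ∀ x : V n, ‖x‖ ≤ ‖q‖ - R' → B' (x + q) = B0 := by
    intro x hx
    apply hBf'
    have h1 : ‖q‖ ≤ ‖x + q‖ + ‖x‖ := by
      have := norm_sub_le (x + q) x
      rwa [add_sub_cancel_left] at this
    linarith
  obtain ⟨ε₀, hε₀, hSTR⟩ := hST n hn B B0 R (fun x => Ψ x) (ball 0 (‖q‖ - R')) 1 hR hB hBf
    isOpen_ball (by rw [mem_ball_zero_iff, norm_zero]; linarith) hΨ.1.contDiffOn hΨ0 hΨ1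
    (by
      intro x hx u v
      rw [mem_ball_zero_iff] at hx
      rw [hΨp, hcon x hx.le]) one_pos
  obtain ⟨r₁, hr₁, hr₁ψ⟩ : ∃ r > 0, ∀ x : V n, ‖x‖ < r → ‖Ψ x‖ < 1 := by
    have hc : ContinuousAt (fun x => Ψ x) 0 := hΨ.1.continuous.continuousAt
    have h0 : ‖(fun x => Ψ x) 0‖ < 1 := by
      show ‖Ψ 0‖ < 1
      rw [hΨ0, norm_zero]; exact one_pos
    have := hc.norm.eventually (gt_mem_nhds h0)
    obtain ⟨r, hr, h⟩ := Metric.eventually_nhds_iff.1 this
    refine ⟨r, hr, fun y hy => h ?_⟩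
    rwa [dist_zero_right]
  obtain ⟨ε, hε, hε1, hε2, hε3⟩ : ∃ ε : ℝ, 0 < ε ∧ ε ≤ ε₀ ∧ ε ≤ 1 ∧ ε * R < r₁ := by
    refine ⟨min ε₀ (min 1 (r₁ / (2 * R))), ?_, min_le_left _ _, ?_, ?_⟩
    · positivity
    · exact (min_le_right _ _).trans (min_le_left _ _)
    · have h1 : min ε₀ (min 1 (r₁ / (2 * R))) ≤ r₁ / (2 * R) :=
        (min_le_right _ _).trans (min_le_right _ _)
      calc min ε₀ (min 1 (r₁ / (2 * R))) * R ≤ r₁ / (2 * R) * R :=
            mul_le_mul_of_nonneg_right h1 hR.le
        _ = r₁ / 2 := by field_simp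
        _ < r₁ := by linarith
  have hεR : ε * R ≤ R := by nlinarith
  have hεi : ∀ w : V n, ε * R ≤ ‖w‖ → B (ε⁻¹ • w) = B0 := by
    intro w hw
    apply hBf
    rw [norm_smul, norm_inv, Real.norm_of_nonneg hε.le, le_inv_mul_iff₀ hε]
    exact hw
  -- the form in the coordinates centred at q
  set τ : V n → V n →L[ℝ] V n →L[ℝ] ℝ := fun x => B' (x + q) + (B (ε⁻¹ • x) - B0) with hτ
  set T : V n → V n →L[ℝ] V n →L[ℝ] ℝ := pb (fun x => Ψ.symm x) τ with hT
  have hτa : ∀ x u v, τ x u v = B' (x + q) u v + (B (ε⁻¹ • x) u v - B0 u v) := fun _ _ _ => rfl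
  have hTΨ : ∀ x u v, T (Ψ x) (fderiv ℝ (fun y => Ψ y) x u) (fderiv ℝ (fun y => Ψ y) x v) =
      τ x u v := by
    intro x u v
    have hd : ∀ w, fderiv ℝ (fun y => Ψ.symm y) (Ψ x) (fderiv ℝ (fun y => Ψ y) x w) = w := by
      intro w
      exact fderiv_inv (f := fun y => Ψ y) (g := fun y => Ψ.symm y)
        (hΨ.1.differentiable (by simp)).differentiableAt
        (hΨ.2.differentiable (by simp)).differentiableAt
        (Eventually.of_forall fun z => Ψ.symm_apply_apply z) w
    rw [hT, pb_apply, hd, hd]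
    simp only [Equiv.symm_apply_apply]
  have hsurj : ∀ (x w : V n), ∃ u, fderiv ℝ (fun y => Ψ y) x u = w := by
    intro x w
    refine ⟨fderiv ℝ (fun y => Ψ.symm y) (Ψ x) w, ?_⟩
    have h := fderiv_inv (f := fun y => Ψ.symm y) (g := fun y => Ψ y) (x := Ψ x)
      (hΨ.2.differentiable (by simp)).differentiableAt
      (hΨ.1.differentiable (by simp)).differentiableAt
      (Eventually.of_forall fun z => Ψ.apply_symm_apply z) w
    simp only [Equiv.symm_apply_apply] at h
    exact h
  have hTfar : ∀ x, ε * R ≤ ‖x‖ → T (Ψ x) = B0 := by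
    intro x hx
    refine ContinuousLinearMap.ext fun a => ContinuousLinearMap.ext fun b => ?_
    obtain ⟨u, rfl⟩ := hsurj x a
    obtain ⟨v, rfl⟩ := hsurj x b
    rw [hTΨ, hΨp, hτa, hεi x hx]
    ring
  -- s1
  have s1 : Iso univ (ins B0 B B' q 1) (ins B0 B B' q ε) := by
    have h := hMV n hn B B' B0 R (fun _ => q) (fun t => (1 - t) + t * ε) (closedBall q R) hR hB
      hBf hB' contDiff_const ((contDiff_const.sub contDiff_id).add (contDiff_id.mul contDiff_const))
      ?_ (isCompact_closedBall _ _) ?_ ?_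
    · have h' := iso_univ hIS h
      simpa using h'
    · intro t ht
      rcases lt_or_eq_of_le ht.2 with h | h
      · have : 0 < 1 - t := by linarith
        have : 0 ≤ t * ε := mul_nonneg ht.1 hε.le
        linarith
      · rw [h]; simpa using hε
    · intro t ht x hx
      rw [mem_closedBall, dist_eq_norm]
      refine hx.trans ?_
      have : (1 - t) + t * ε ≤ 1 := by nlinarith [ht.1]
      nlinarith
    · intro x hx
      rw [mem_closedBall, dist_eq_norm] at hx
      have := hcon (x - q) (hx.trans hr.le)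
      rwa [sub_add_cancel] at this
  -- s2
  have s2 : Iso univ (ins B0 B B' q ε) τ := by
    refine ⟨Equiv.subRight q, ⟨?_, ?_⟩, fun x hx => absurd (mem_univ x) hx, ?_⟩
    · exact contDiff_id.sub contDiff_const
    · exact contDiff_id.add contDiff_const
    · intro x u v
      have hd : fderiv ℝ (fun x : V n => (Equiv.subRight q) x) x = ContinuousLinearMap.id ℝ (V n) :=
        ((hasFDerivAt_id x).sub_const q).fderiv
      rw [hd]
      show B' (x - q + q) u v + (B (ε⁻¹ • (x - q)) u v - B0 u v) = _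
      rw [sub_add_cancel]
      rfl
  -- s3
  have s3 : Iso univ T τ :=
    ⟨Ψ.symm, ⟨hΨ.2, hΨ.1⟩, fun x hx => absurd (mem_univ x) hx, fun x u v => rfl⟩
  -- s4
  have s4 : Iso univ (ins B0 B (fun _ => B0) 0 ε) T := by
    apply iso_univ hIS (hSTR ε hε hε1 (fun _ => B0) T (fun _ _ => rfl) ?_ ?_ ?_)
    · intro y hy
      obtain ⟨x, rfl⟩ := Ψ.surjective y
      apply hTfar
      by_contra hcon
      rw [not_le] at hcon
      have := hr₁ψ x (hcon.trans hε3)
      linarith
    · intro y _ hy
      obtain ⟨x, rfl⟩ := Ψ.surjective y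
      apply hTfar
      by_contra hcon
      rw [not_le] at hcon
      apply hy x
      · rw [mem_ball_zero_iff]
        linarith
      · exact hcon.le
      · rfl
    · intro x hx u v
      rw [mem_ball_zero_iff] at hx
      have h1 := hTΨ x u v
      rw [hτa, hcon x hx.le] at h1
      show T (Ψ x) _ _ = _
      rw [h1]
      ring
  -- s5
  have hB0s : Symp (fun _ : V n => B0) := by
    refine ⟨contDiff_const, ?_, ?_, ?_⟩
    · intro x u
      have := hB'.alt q u
      rwa [hBf' q hqR] at this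
    · intro x u v w
      simp
    · intro x u hu
      apply hB'.nondeg q u
      intro v
      rw [hBf' q hqR]
      exact hu v
  have s5 : Iso univ (ins B0 B (fun _ => B0) 0 ε) (ins B0 B (fun _ => B0) 0 1) := by
    have h := hMV n hn B (fun _ => B0) B0 R (fun _ => 0) (fun t => (1 - t) * ε + t)
      (closedBall 0 R) hR hB hBf hB0s contDiff_const
      (((contDiff_const.sub contDiff_id).mul contDiff_const).add contDiff_id)
      ?_ (isCompact_closedBall _ _) ?_ (fun _ _ => rfl)
    · have h' := iso_univ hIS h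
      simpa using h'
    · intro t ht
      rcases lt_or_eq_of_le ht.1 with h | h
      · have : 0 ≤ (1 - t) * ε := mul_nonneg (by linarith [ht.2]) hε.le
        linarith
      · rw [← h]; simpa using hε
    · intro t ht x hx
      rw [mem_closedBall, dist_eq_norm]
      refine hx.trans ?_
      have : (1 - t) * ε + t ≤ 1 := by nlinarith [ht.2]
      nlinarith
  have s6 : ins B0 B (fun _ => B0) 0 1 = B := by
    funext x
    refine ContinuousLinearMap.ext fun u => ContinuousLinearMap.ext fun v => ?_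
    show B0 u v + (B ((1 : ℝ)⁻¹ • (x - 0)) u v - B0 u v) = B x u v
    rw [inv_one, one_smul, sub_zero]
    ring
  rw [s6] at s5
  exact iso_trans hIS s1 (iso_trans hIS s2 (iso_trans hIS (iso_symm hIS s3)
    (iso_trans hIS (iso_symm hIS s4) (iso_trans hIS s5 hI))))

end Pool.Agent.Helper97.SZ
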